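import Pool.Agent.W2helper88.GM.Dm
import Pool.Agent.W2helper88.GR.Asm

set_option autoImplicit false

/-!
# Project GM (helper88): the mirrored weights: short paths between vertices of the same class
-/

namespace Pool.Agent.W2helper88.GM

open Finset Filter
open Pool.Agent.H373R2.T7 (pz Vz lamz mem_pz nuB PerB nuB_le sys_fund Vz_pos)
open Pool.Agent.W2helper88.GR

/-- the edges: a prime difference, larger than the square root of `n`, and a rough sum -/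
def Em (n Y : ℕ) (x y : ℤ) : Prop := (1 ≤ x ∧ x ≤ n) ∧ (1 ≤ y ∧ y ≤ n) ∧ (y - x).natAbs.Prime ∧ n < (y - x).natAbs ^ 2 ∧
  (∀ p : ℕ, p.Prime → p ≤ Y → ¬ (p : ℤ) ∣ x + y)

lemma Em_mono {n Y Y' : ℕ} {x y : ℤ} (h : Y' ≤ Y) (he : Em n Y x y) : Em n Y' x y := by
  obtain ⟨h1, h2, h3, h4, h5⟩ := he
  exact ⟨h1, h2, h3, h4, fun p hp hpY => h5 p hp (hpY.trans h)⟩

lemma Vf_pos {n Y : ℕ} {x y : ℤ} (hx : 1 ≤ x ∧ x ≤ n) (hy : 1 ≤ y ∧ y ≤ n) (h : Vf n Y x y ≠ 0) : Em n Y x y := by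
  unfold Vf at h
  have ha : ap n (y - x) ≠ 0 := left_ne_zero_of_mul h
  have hl : lz Y (x + y) ≠ 0 := right_ne_zero_of_mul h
  unfold ap at ha
  rw [lz_ite] at hl
  have ha' : (y - x).natAbs.Prime ∧ n < (y - x).natAbs ^ 2 ∧ (y - x).natAbs ≤ 2 * n := by
    by_contra hcon
    exact ha (if_neg hcon)
  have hl' : ∀ p ∈ pz Y, ¬ (p : ℤ) ∣ x + y := by
    by_contra hcon
    exact hl (if_neg hcon)
  exact ⟨hx, hy, ha'.1, ha'.2.1, fun p hp hpY => hl' p (mem_pz.2 ⟨hpY, hp⟩)⟩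

theorem goodm_nbr {n Y : ℕ} {v x : ℤ} (hv : 1 ≤ v) (hvn : v ≤ n) (hx : 1 ≤ x) (hxn : x ≤ n)
    (hcf : (n : ℝ) / 256 < cf n (Vf n Y) v x) : ∃ y, Em n Y v y ∧ Em n Y x y := by
  by_contra hcon
  push Not at hcon
  have h1 : cf n (Vf n Y) v x = 0 := by
    unfold cf
    apply sum_eq_zero
    intro y hy
    rw [mem_Icc] at hy
    by_contra hne
    exact hcon y (Vf_pos ⟨hv, hvn⟩ hy (left_ne_zero_of_mul hne)) (Vf_pos ⟨hx, hxn⟩ hy (right_ne_zero_of_mul hne))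
  rw [h1] at hcf
  have : (0 : ℝ) ≤ n / 256 := by positivity
  linarith

theorem onem_nbr : ∃ K0 : ℕ, ∀ K : ℕ, K0 ≤ K → ∀ᶠ n : ℕ in atTop, ∀ v : ℤ, 1 ≤ v → v ≤ n → ∃ y, Em n (rt K n) v y := by
  obtain ⟨K0, hK0⟩ := degm_low
  refine ⟨K0, fun K hK => ?_⟩
  filter_upwards [hK0 K hK, eventually_ge_atTop 1] with n hd hn v hv hvn
  by_contra hcon
  push Not at hcon
  have hn1 : (1 : ℝ) ≤ n := by exact_mod_cast hn
  have hd' := hd v hv hvn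
  have hw := one_le_wv (rt K n) v
  have h0 : (n : ℝ) / 8 * 1 ≤ n / 8 * wv (rt K n) v := mul_le_mul_of_nonneg_left hw (by positivity)
  have h1 : ∑ x ∈ Icc (1 : ℤ) n, Vf n (rt K n) v x = 0 := by
    apply sum_eq_zero
    intro y hy
    rw [mem_Icc] at hy
    by_contra hne
    exact hcon y (Vf_pos ⟨hv, hvn⟩ hy hne)
  linarith

lemma Em_mod {n Y : ℕ} {x y : ℤ} (hn : 9 ≤ n) (hY : 3 ≤ Y) (h : Em n Y x y) :
    ¬ (2 : ℤ) ∣ x + y ∧ ¬ (3 : ℤ) ∣ x + y ∧ ¬ (2 : ℤ) ∣ y - x ∧ ¬ (3 : ℤ) ∣ y - x := by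
  obtain ⟨h1, h2, h3, h4, h5⟩ := h
  have h7 : 3 < (y - x).natAbs := by
    by_contra hc
    have : (y - x).natAbs ^ 2 ≤ 3 ^ 2 := Nat.pow_le_pow_left (by omega) 2
    omega
  refine ⟨?_, ?_, ?_, ?_⟩
  · exact_mod_cast h5 2 Nat.prime_two (by omega)
  · exact_mod_cast h5 3 Nat.prime_three hY
  · intro hd
    have h8 : 2 ∣ (y - x).natAbs := Int.natCast_dvd.1 (by exact_mod_cast hd)
    have := (Nat.prime_dvd_prime_iff_eq Nat.prime_two h3).1 h8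
    omega
  · intro hd
    have h8 : 3 ∣ (y - x).natAbs := Int.natCast_dvd.1 (by exact_mod_cast hd)
    have := (Nat.prime_dvd_prime_iff_eq Nat.prime_three h3).1 h8
    omega

lemma Smm_of {n Y : ℕ} {v x y : ℤ} (hn : 9 ≤ n) (hY : 3 ≤ Y) (h1 : Em n Y v y) (h2 : Em n Y x y) : Sm v x := by
  obtain ⟨a1, a2, a3, a4⟩ := Em_mod hn hY h1
  obtain ⟨b1, b2, b3, b4⟩ := Em_mod hn hY h2
  unfold Sm
  constructor
  · omega
  · have c1 : v % 3 = 0 ∨ v % 3 = 1 ∨ v % 3 = 2 := by omega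
    have c2 : x % 3 = 0 ∨ x % 3 = 1 ∨ x % 3 = 2 := by omega
    have c3 : y % 3 = 0 ∨ y % 3 = 1 ∨ y % 3 = 2 := by omega
    clear a1 a3 b1 b3 h1 h2
    rcases c1 with c1 | c1 | c1 <;> rcases c2 with c2 | c2 | c2 <;> rcases c3 with c3 | c3 | c3 <;> omega

/-- a path of length six -/
def P6m (n Y : ℕ) (v v' : ℤ) : Prop := ∃ y x z x' y', Em n Y v y ∧ Em n Y x y ∧ Em n Y x z ∧ Em n Y x' z ∧ Em n Y x' y' ∧ Em n Y v' y'

theorem pathsm : ∃ K0 : ℕ, ∀ K : ℕ, K0 ≤ K → ∀ᶠ n : ℕ in atTop,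
    (∀ v v' : ℤ, 1 ≤ v → v ≤ n → 1 ≤ v' → v' ≤ n → Sm v v' → P6m n (rt K n) v v') := by
  classical
  obtain ⟨Ka, ha⟩ := densem
  obtain ⟨c0, hc0, hden⟩ := ha (max Ka 1) (le_max_left _ _)
  obtain ⟨w0, hw0⟩ := closem (c0 ^ 2 / 2048) (by positivity)
  obtain ⟨w1, hw1⟩ := cM_low
  obtain ⟨Kb, hKb⟩ := hw0 (max w0 w1) (le_max_left _ _)
  refine ⟨max (max Ka 1) Kb, fun K hK => ?_⟩
  have hK1 : 1 ≤ K := le_trans (le_trans (le_max_right _ _) (le_max_left _ _)) hK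
  filter_upwards [hden, hKb K (le_trans (le_max_right _ _) hK), hw1 (max w0 w1) (le_max_right _ _),
    rt_ge K 3 hK1, eventually_ge_atTop 9] with n h1 h2 h3 h5 hn v v' hv hvn hv' hvn' hsm
  obtain ⟨Y, hY⟩ : ∃ Y, Y = rt K n := ⟨_, rfl⟩
  obtain ⟨Y0, hY0⟩ : ∃ Y0, Y0 = rt (max Ka 1) n := ⟨_, rfl⟩
  rw [← hY] at h2 h5 ⊢
  rw [← hY0] at h1
  have hYY : Y ≤ Y0 := by
    rw [hY, hY0]
    apply rt_anti (le_max_right _ _) (le_trans (le_max_left _ _) hK)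
    rw [← hY]; omega
  have hn0 : (0 : ℝ) < n := by exact_mod_cast (by omega : 0 < n)
  -- the elements of the second neighbourhoods
  have hN : ∀ u : ℤ, 1 ≤ u → u ≤ n → ∀ x ∈ N2m n Y0 u, (1 ≤ x ∧ x ≤ n) ∧ Sm u x ∧ ∃ y, Em n Y u y ∧ Em n Y x y := by
    intro u hu hun x hx
    rw [mem_N2m] at hx
    obtain ⟨y, e1, e2⟩ := goodm_nbr hu hun hx.1.1 hx.1.2 hx.2.2
    exact ⟨hx.1, Smm_of hn (h5.trans hYY) e1 e2, y, Em_mono hYY e1, Em_mono hYY e2⟩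
  have hd1 := h1 v hv hvn
  have hd2 := h1 v' hv' hvn'
  by_cases hex : ∃ x ∈ N2m n Y0 v, ∃ x' ∈ N2m n Y0 v', (n : ℝ) / 64 < cf n (Vf n Y) x x'
  · obtain ⟨x, hx, x', hx', hlt⟩ := hex
    obtain ⟨hx1, _, y, e1, e2⟩ := hN v hv hvn x hx
    obtain ⟨hx1', _, y', e1', e2'⟩ := hN v' hv' hvn' x' hx'
    obtain ⟨z, e3, e4⟩ := goodm_nbr hx1.1 hx1.2 hx1'.1 hx1'.2 (lt_of_le_of_lt (by
      apply div_le_div_of_nonneg_left hn0.le (by norm_num) (by norm_num)) hlt)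
    exact ⟨y, x, z, x', y', e1, e2, e3, e4, e2', e1'⟩
  · exfalso
    push Not at hex
    have hlow : ∀ x ∈ N2m n Y0 v, ∀ x' ∈ N2m n Y0 v', (n : ℝ) ^ 2 / 1024 ≤ (cf n (Vf n Y) x x' - cf n (Mf (max w0 w1)) x x') ^ 2 := by
      intro x hx x' hx'
      obtain ⟨_, s1, _⟩ := hN v hv hvn x hx
      obtain ⟨_, s2, _⟩ := hN v' hv' hvn' x' hx'
      unfold Sm at s1 s2 hsm
      have g1 := h3 x x' (by omega) (by omega)
      have g2 := hex x hx x' hx'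
      have g3 : (n : ℝ) / 32 ≤ cf n (Mf (max w0 w1)) x x' - cf n (Vf n Y) x x' := by linarith
      have g4 : ((n : ℝ) / 32) ^ 2 ≤ (cf n (Mf (max w0 w1)) x x' - cf n (Vf n Y) x x') ^ 2 := pow_le_pow_left₀ (by positivity) g3 2
      calc (n : ℝ) ^ 2 / 1024 = ((n : ℝ) / 32) ^ 2 := by ring
        _ ≤ _ := g4
        _ = _ := by ring
    have hsum : ((N2m n Y0 v).card : ℝ) * ((N2m n Y0 v').card * ((n : ℝ) ^ 2 / 1024)) ≤
        ∑ x ∈ Icc (1 : ℤ) n, ∑ x' ∈ Icc (1 : ℤ) n, (cf n (Vf n Y) x x' - cf n (Mf (max w0 w1)) x x') ^ 2 := by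
      have hsub : ∀ u : ℤ, N2m n Y0 u ⊆ Icc (1 : ℤ) n := by
        intro u x hx
        rw [mem_N2m] at hx
        rw [mem_Icc]; exact hx.1
      calc ((N2m n Y0 v).card : ℝ) * ((N2m n Y0 v').card * ((n : ℝ) ^ 2 / 1024)) =
          ∑ x ∈ N2m n Y0 v, ∑ x' ∈ N2m n Y0 v', (n : ℝ) ^ 2 / 1024 := by
            rw [sum_const, sum_const]; simp only [nsmul_eq_mul]
        _ ≤ ∑ x ∈ N2m n Y0 v, ∑ x' ∈ N2m n Y0 v', (cf n (Vf n Y) x x' - cf n (Mf (max w0 w1)) x x') ^ 2 :=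
            sum_le_sum fun x hx => sum_le_sum fun x' hx' => hlow x hx x' hx'
        _ ≤ ∑ x ∈ N2m n Y0 v, ∑ x' ∈ Icc (1 : ℤ) n, (cf n (Vf n Y) x x' - cf n (Mf (max w0 w1)) x x') ^ 2 :=
            sum_le_sum fun x _ => sum_le_sum_of_subset_of_nonneg (hsub v') fun _ _ _ => sq_nonneg _
        _ ≤ _ := sum_le_sum_of_subset_of_nonneg (hsub v) fun _ _ _ => sum_nonneg fun _ _ => sq_nonneg _
    have hfin := hsum.trans h2
    have hprod : (c0 * n) * ((c0 * n) * ((n : ℝ) ^ 2 / 1024)) ≤ ((N2m n Y0 v).card : ℝ) * ((N2m n Y0 v').card * ((n : ℝ) ^ 2 / 1024)) := by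
      apply mul_le_mul hd1 _ (by positivity) (by positivity)
      exact mul_le_mul_of_nonneg_right hd2 (by positivity)
    have hcmp := hprod.trans hfin
    have hpos : 0 < c0 ^ 2 * (n : ℝ) ^ 4 := by positivity
    nlinarith

end Pool.Agent.W2helper88.GM
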