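import Pool.Agent.W2helper88.GM.Tb
import Pool.Agent.W2helper88.GR.Dns

set_option autoImplicit false

/-!
# Project GM (helper88): the mirrored weights: codegrees and degrees
-/

namespace Pool.Agent.W2helper88.GM

open Finset Filter
open Pool.Agent.H373R2.T7 (pz Vz lamz mem_pz nuB PerB nuB_le sys_fund Vz_pos rhoA PerA lam_fund)
open Pool.Agent.W2helper88.GR

/-- the weight of the edge `x y`: prime difference and rough sum -/
noncomputable def Vf (n Y : ℕ) (x y : ℤ) : ℝ := ap n (y - x) * lz Y (x + y)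

lemma Vf_eq (n Y : ℕ) (x y : ℤ) : Vf n Y x y = Wf n Y (-x) y := by
  unfold Vf Wf
  have e1 : -x + y = y - x := by ring
  have e2 : y - -x = x + y := by ring
  rw [e1, e2]

lemma Vf_nonneg (n Y : ℕ) (x y : ℤ) : 0 ≤ Vf n Y x y := mul_nonneg (ap_nonneg _ _) (lz_nonneg _ _)

lemma Vf_symm (n Y : ℕ) (x y : ℤ) : Vf n Y x y = Vf n Y y x := by
  unfold Vf
  have e : y - x = -(x - y) := by ring
  rw [add_comm x y, e, ap_neg]

lemma cVV (n Y w : ℕ) : ∑ x ∈ Icc (1 : ℤ) n, ∑ x' ∈ Icc (1 : ℤ) n, cf n (Vf n Y) x x' * cf n (Vf n Y) x x' =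
    TTm n Y w (fun _ => true) := by
  rw [cf_mul]
  unfold TTm
  congr 1
  funext x x' y y'
  simp only [Fin.prod_univ_four, sg, df, aa, zz, Vf, if_true, Matrix.cons_val_zero, Matrix.cons_val_one, Matrix.cons_val]
  ring

lemma cVM (n Y w : ℕ) : ∑ x ∈ Icc (1 : ℤ) n, ∑ x' ∈ Icc (1 : ℤ) n, cf n (Vf n Y) x x' * cf n (Mf w) x x' =
    TTm n Y w ![true, true, false, false] := by
  rw [cf_mul]
  unfold TTm
  congr 1
  funext x x' y y'
  simp only [Fin.prod_univ_four, sg, df, aa, zz, Vf, Mf, if_true, Matrix.cons_val_zero, Matrix.cons_val_one, Matrix.cons_val,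
    Bool.false_eq_true, if_false]
  ring

lemma cMMm (n Y w : ℕ) : ∑ x ∈ Icc (1 : ℤ) n, ∑ x' ∈ Icc (1 : ℤ) n, cf n (Mf w) x x' * cf n (Mf w) x x' =
    TTm n Y w (fun _ => false) := by
  rw [cf_mul]
  unfold TTm
  congr 1
  funext x x' y y'
  simp only [Fin.prod_univ_four, sg, df, aa, zz, Mf, Matrix.cons_val_zero, Matrix.cons_val_one, Matrix.cons_val,
    Bool.false_eq_true, if_false]
  ring

lemma varm_eq (n Y w : ℕ) : ∑ x ∈ Icc (1 : ℤ) n, ∑ x' ∈ Icc (1 : ℤ) n, (cf n (Vf n Y) x x' - cf n (Mf w) x x') ^ 2 =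
    TTm n Y w (fun _ => true) - 2 * TTm n Y w ![true, true, false, false] + TTm n Y w (fun _ => false) := by
  rw [← cVV, ← cVM, ← cMMm n Y w, mul_sum, ← sum_sub_distrib, ← sum_add_distrib]
  refine sum_congr rfl fun x _ => ?_
  rw [mul_sum, ← sum_sub_distrib, ← sum_add_distrib]
  refine sum_congr rfl fun x' _ => ?_
  ring

/-- the codegrees are close to the model in mean square -/
theorem closem (δ : ℝ) (hδ : 0 < δ) : ∃ w0 : ℕ, ∀ w : ℕ, w0 ≤ w → ∃ K0 : ℕ, ∀ K : ℕ, K0 ≤ K → ∀ᶠ n : ℕ in atTop,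
    ∑ x ∈ Icc (1 : ℤ) n, ∑ x' ∈ Icc (1 : ℤ) n, (cf n (Vf n (rt K n)) x x' - cf n (Mf w) x x') ^ 2 ≤ δ * n ^ 4 := by
  obtain ⟨CT, hCT, htr⟩ := tracem
  refine ⟨max 4 ⌈(4096 * CT / δ) ^ 2⌉₊, fun w hw => ?_⟩
  have hw4 : 4 ≤ w := le_trans (le_max_left _ _) hw
  have hw1 : (4096 * CT / δ) ^ 2 ≤ (w : ℝ) := (Nat.le_ceil _).trans (by exact_mod_cast le_trans (le_max_right _ _) hw)
  have hw0 : (0 : ℝ) < w := by exact_mod_cast (by omega : 0 < w)
  have hsw : 4096 * CT / δ ≤ √(w : ℝ) := by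
    apply Real.le_sqrt_of_sq_le
    exact hw1
  have hs0 : 0 < √(w : ℝ) := Real.sqrt_pos.2 hw0
  have hA : CT * (256 / √(w : ℝ)) ≤ δ / 16 := by
    rw [div_le_iff₀ hδ] at hsw
    rw [← mul_div_assoc, div_le_iff₀ hs0]
    linarith
  have hε : 0 < δ / (512 * CT) := by positivity
  obtain ⟨K0, hK0⟩ := htr (δ / (512 * CT)) hε
  refine ⟨K0, fun K hK => ?_⟩
  filter_upwards [hK0 K hK w hw4 (δ / 16) (by positivity)] with n hn
  rw [varm_eq]
  have g1 := (abs_le.1 (hn (fun _ => true))).2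
  have g2 := (abs_le.1 (hn ![true, true, false, false])).1
  have g3 := (abs_le.1 (hn (fun _ => false))).2
  have hB : CT * (256 / √(w : ℝ) + 32 * (δ / (512 * CT))) + δ / 16 ≤ δ / 4 := by
    have : CT * (32 * (δ / (512 * CT))) = δ / 16 := by field_simp; norm_num
    rw [mul_add, this]
    linarith
  have hC : (CT * (256 / √(w : ℝ) + 32 * (δ / (512 * CT))) + δ / 16) * (n : ℝ) ^ 4 ≤ δ / 4 * (n : ℝ) ^ 4 :=
    mul_le_mul_of_nonneg_right hB (by positivity)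
  linarith

/-! ### the degrees -/

/-- the forbidden classes -/
def Qz (a : ℤ) (p m : ℕ) : Prop := (p : ℤ) ∣ (m : ℤ) - 2 * a

lemma Qz_per (a : ℤ) (p n : ℕ) : Qz a p n ↔ Qz a p (n % p) := by
  unfold Qz
  have h2 : ((n % p : ℕ) : ℤ) + (p : ℤ) * ((n / p : ℕ) : ℤ) = n := by exact_mod_cast Nat.mod_add_div n p
  have h1 : (n : ℤ) - 2 * a = (((n % p : ℕ) : ℤ) - 2 * a) + (p : ℤ) * ((n / p : ℕ) : ℤ) := by
    linear_combination -h2
  rw [h1]
  exact dvd_add_left (dvd_mul_right _ _)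

lemma rhoz_le (a : ℤ) (p : ℕ) (_hp : p.Prime) : rhoA (Qz a) p ≤ 1 := by
  classical
  unfold rhoA
  rw [card_le_one]
  intro r hr s hs
  rw [mem_filter, mem_range] at hr hs
  obtain ⟨hr1, _, hr2⟩ := hr
  obtain ⟨hs1, _, hs2⟩ := hs
  unfold Qz at hr2 hs2
  have h1 : (p : ℤ) ∣ (r : ℤ) - s := by
    have := dvd_sub hr2 hs2
    have e : (r : ℤ) - 2 * a - (s - 2 * a) = r - s := by ring
    rwa [e] at this
  have h2 : |(r : ℤ) - s| < p := by rw [abs_lt]; omega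
  have h3 := Int.eq_zero_of_abs_lt_dvd h1 h2
  omega

lemma rhoz_zero (a : ℤ) (p : ℕ) (h : (p : ℤ) ∣ 2 * a) : rhoA (Qz a) p = 0 := by
  classical
  unfold rhoA
  rw [card_eq_zero, filter_eq_empty_iff]
  rintro r _ ⟨h1, h2⟩
  unfold Qz at h2
  apply h1
  have := dvd_add h2 h
  rw [sub_add_cancel] at this
  exact_mod_cast this

lemma Qz_perA (a : ℤ) : PerA (Qz a) 1 := ⟨Qz_per a, fun p hp => rhoz_le a p hp⟩

lemma VPz_low (Y : ℕ) (a : ℤ) : 1 / 2 * wv Y a ≤ (Vz Y)⁻¹ * ∏ p ∈ pz Y, (1 - (rhoA (Qz a) p : ℝ) / (p - 1 : ℝ)) := by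
  classical
  have h1 : wv Y a * ∏ p ∈ pz Y, tf p ≤ (Vz Y)⁻¹ * ∏ p ∈ pz Y, (1 - (rhoA (Qz a) p : ℝ) / (p - 1 : ℝ)) := by
    unfold wv Vz
    rw [← prod_inv_distrib, ← prod_mul_distrib, ← prod_mul_distrib]
    apply Finset.prod_le_prod
    · intro p hp
      have hpp := (mem_pz.1 hp).2
      apply mul_nonneg
      · split_ifs
        · exact le_trans zero_le_one (inv_ge_one hpp)
        · exact zero_le_one
      · unfold tf
        split_ifs with h
        · exact zero_le_one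
        · have hp3 : (3 : ℝ) ≤ p := by
            have := hpp.two_le
            exact_mod_cast (by omega : 3 ≤ p)
          rw [sub_nonneg, div_le_one (by nlinarith)]
          nlinarith
    · intro p hp
      have hpp := (mem_pz.1 hp).2
      have hi := inv_ge_one hpp
      by_cases h2 : p = 2
      · have h3 : rhoA (Qz a) p = 0 := rhoz_zero a p (by rw [h2]; exact dvd_mul_right _ _)
        rw [h3]
        unfold tf
        rw [if_pos h2]
        simp only [Nat.cast_zero, zero_div, sub_zero, mul_one]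
        split_ifs
        · exact le_rfl
        · exact hi
      · have hp3 : (3 : ℝ) ≤ p := by
          have := hpp.two_le
          exact_mod_cast (by omega : 3 ≤ p)
        have ht : tf p ≤ 1 := by
          unfold tf
          rw [if_neg h2]
          have : (0 : ℝ) ≤ 1 / ((p : ℝ) - 1) ^ 2 := by positivity
          linarith
        by_cases h3 : (p : ℤ) ∣ a
        · rw [if_pos h3, rhoz_zero a p (dvd_mul_of_dvd_right h3 _)]
          simp only [Nat.cast_zero, zero_div, sub_zero]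
          exact mul_le_mul_of_nonneg_left ht (by linarith)
        · rw [if_neg h3, one_mul]
          have h4 : (rhoA (Qz a) p : ℝ) ≤ 1 := by exact_mod_cast rhoz_le a p hpp
          have hp1 : 0 < (p : ℝ) - 1 := by linarith
          have h5 : 1 - 1 / ((p : ℝ) - 1) ≤ 1 - (rhoA (Qz a) p : ℝ) / (p - 1 : ℝ) := by
            have : (rhoA (Qz a) p : ℝ) / (p - 1 : ℝ) ≤ 1 / ((p : ℝ) - 1) := div_le_div_of_nonneg_right h4 hp1.le
            linarith
          refine le_trans (le_of_eq ?_) (mul_le_mul_of_nonneg_left h5 (by linarith))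
          unfold tf
          rw [if_neg h2]
          have hp0 : (p : ℝ) ≠ 0 := by linarith
          have hp1' : (p : ℝ) - 1 ≠ 0 := hp1.ne'
          field_simp
          ring
  have h2 := prod_tf Y
  have h3 := one_le_wv Y a
  nlinarith

lemma wv_neg (Y : ℕ) (a : ℤ) : wv Y (-a) = wv Y a := by
  unfold wv
  simp only [dvd_neg]

/-- sums over primes of half a window, for an arbitrary shift -/
theorem half_low : ∃ K0 : ℕ, ∀ K : ℕ, K0 ≤ K → ∀ᶠ n : ℕ in atTop, ∀ a : ℤ, ∀ X : ℕ, n ≤ 2 * X + 1 → X ≤ n →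
    (n : ℝ) / 8 * wv (rt K n) a ≤ ∑ m ∈ Icc 1 X, ap n m * lz (rt K n) ((m : ℤ) - 2 * a) := by
  classical
  obtain ⟨C, hC1, hC⟩ := V_low'
  obtain ⟨K1, hK1, hlf⟩ := lam_fund 1 le_rfl (1 / 12) (by norm_num)
  obtain ⟨x0, hx0⟩ := hlf (C + 1)
  refine ⟨max K1 1, fun K hK => ?_⟩
  have hK1' : 1 ≤ K := le_trans (le_max_right _ _) hK
  filter_upwards [hC, rt_ge K (max x0 1) hK1', eventually_ge_atTop 20, ev_log (C + 1) 640, ev_L 128] with n h1 h2 hn hs hL a X hX hXn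
  obtain ⟨Y, hY⟩ : ∃ Y, Y = rt K n := ⟨_, rfl⟩
  rw [← hY] at h2 ⊢
  have hYn : Y ≤ n := by rw [hY]; exact rt_le_self _ _
  have hxY : x0 ≤ Y := le_trans (le_max_left _ _) h2
  have h1Y : 1 ≤ Y := le_trans (le_max_right _ _) h2
  have hYK : Y ^ K1 ≤ 2 * n := by
    calc Y ^ K1 ≤ Y ^ K := Nat.pow_le_pow_right h1Y (le_trans (le_max_left _ _) hK)
      _ ≤ n := by rw [hY]; exact rt_le _ n hK1'
      _ ≤ 2 * n := by omega
  have hn0 : (0 : ℝ) < n := by exact_mod_cast (by omega : 0 < n)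
  have hn20 : (20 : ℝ) ≤ n := by exact_mod_cast hn
  obtain ⟨Pv, hPv⟩ : ∃ Pv : ℝ, Pv = ∏ p ∈ pz Y, (1 - (rhoA (Qz a) p : ℝ) / (p - 1 : ℝ)) := ⟨_, rfl⟩
  have hP0 : 0 ≤ Pv := by
    rw [hPv]
    apply prod_nonneg
    intro p hp
    have hpp := (mem_pz.1 hp).2
    have hp2 : (2 : ℝ) ≤ p := by exact_mod_cast hpp.two_le
    have h4 : (rhoA (Qz a) p : ℝ) ≤ 1 := by exact_mod_cast rhoz_le a p hpp
    rw [sub_nonneg, div_le_one (by linarith)]
    linarith
  have hSX := hx0 (2 * n) Y hxY hYK (Qz a) (Qz_perA a) X (by omega)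
  rw [← hPv] at hSX
  have hSb := (abs_le.1 hSX).1
  have hE : ((2 * n : ℕ) : ℝ) / Real.log ((2 * n : ℕ) : ℝ) ^ (C + 1) ≤ 2 * (n / Real.log n ^ (C + 1)) := by
    have h5 : Real.log n ^ (C + 1) ≤ Real.log ((2 * n : ℕ) : ℝ) ^ (C + 1) :=
      pow_le_pow_left₀ (by linarith) (Real.log_le_log hn0 (by push_cast; linarith)) (C + 1)
    calc ((2 * n : ℕ) : ℝ) / Real.log ((2 * n : ℕ) : ℝ) ^ (C + 1) ≤ ((2 * n : ℕ) : ℝ) / Real.log n ^ (C + 1) :=
          div_le_div_of_nonneg_left (by positivity) (by positivity) h5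
      _ = _ := by push_cast; ring
  have e1 : ∑ m ∈ Icc 1 X, ap n m * lz Y ((m : ℤ) - 2 * a) =
      (Vz Y)⁻¹ * ∑ m ∈ (Icc 1 X).filter (fun m : ℕ => ∀ p ∈ pz Y, ¬ Qz a p m), ap n m := by
    rw [mul_sum, sum_filter]
    refine sum_congr rfl fun m _ => ?_
    rw [lz_ite]
    by_cases h : ∀ p ∈ pz Y, ¬ Qz a p m
    · have h' : ∀ p ∈ pz Y, ¬ (p : ℤ) ∣ (m : ℤ) - 2 * a := h
      rw [if_pos h, if_pos h']
      ring
    · have h' : ¬ ∀ p ∈ pz Y, ¬ (p : ℤ) ∣ (m : ℤ) - 2 * a := h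
      rw [if_neg h, if_neg h', mul_zero]
  have e3 : ∑ m ∈ (Icc 1 X).filter (fun m : ℕ => ∀ p ∈ pz Y, ¬ Qz a p m), ArithmeticFunction.vonMangoldt m - 10 * (√(n : ℝ) * Real.log n) ≤
      ∑ m ∈ (Icc 1 X).filter (fun m : ℕ => ∀ p ∈ pz Y, ¬ Qz a p m), ap n m := by
    have h5 : ∑ m ∈ (Icc 1 X).filter (fun m : ℕ => ∀ p ∈ pz Y, ¬ Qz a p m), (ArithmeticFunction.vonMangoldt m - ap n m) ≤
        10 * (√(n : ℝ) * Real.log n) := by
      refine le_trans ?_ (sum_lam_ap n (by omega))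
      apply sum_le_sum_of_subset_of_nonneg
      · intro m hm
        rw [mem_filter, mem_Icc] at hm
        rw [mem_Icc]
        omega
      · intro m _ _
        linarith [lam_ge_ap n m]
    rw [sum_sub_distrib] at h5
    linarith
  rw [e1]
  have hVi : 0 < (Vz Y)⁻¹ := inv_pos.2 (Vz_pos Y)
  have hVL : (Vz Y)⁻¹ ≤ Real.log n ^ C := h1 Y hYn
  have hX2 : (n : ℝ) * (9 / 20) ≤ X := by
    have : (n : ℝ) ≤ 2 * X + 1 := by exact_mod_cast hX
    linarith
  have h6 : (3 / 8 : ℝ) * (n * Pv) - 2 * (n / Real.log n ^ (C + 1)) - 10 * (√(n : ℝ) * Real.log n) ≤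
      ∑ m ∈ (Icc 1 X).filter (fun m : ℕ => ∀ p ∈ pz Y, ¬ Qz a p m), ap n m := by
    refine le_trans ?_ e3
    have hSb' : -(1 / 12 * ((X : ℝ) * Pv) + ((2 * n : ℕ) : ℝ) / Real.log ((2 * n : ℕ) : ℝ) ^ (C + 1)) ≤
      ∑ m ∈ (Icc 1 X).filter (fun m : ℕ => ∀ p ∈ pz Y, ¬ Qz a p m), ArithmeticFunction.vonMangoldt m - (X : ℝ) * Pv := by
      convert hSb
    have haP : ((n : ℝ) * (9 / 20)) * Pv ≤ X * Pv := mul_le_mul_of_nonneg_right hX2 hP0
    have hnP : 0 ≤ (n : ℝ) * Pv := by positivity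
    linarith
  have h7 := mul_le_mul_of_nonneg_left h6 hVi.le
  refine le_trans ?_ h7
  have h8 := VPz_low Y a
  rw [← hPv] at h8
  have hw := one_le_wv Y a
  have hLC0 : 0 < Real.log n ^ C := by positivity
  have h9 : (Vz Y)⁻¹ * (2 * (n / Real.log n ^ (C + 1)) + 10 * (√(n : ℝ) * Real.log n)) ≤ n / 32 := by
    have h10 : (Vz Y)⁻¹ * (2 * (n / Real.log n ^ (C + 1)) + 10 * (√(n : ℝ) * Real.log n)) ≤
        Real.log n ^ C * (2 * (n / Real.log n ^ (C + 1)) + 10 * (√(n : ℝ) * Real.log n)) :=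
      mul_le_mul_of_nonneg_right hVL (by positivity)
    have h11 : Real.log n ^ C * (2 * (n / Real.log n ^ (C + 1))) ≤ n / 64 := by
      have e4 : Real.log n ^ C * (2 * (n / Real.log n ^ (C + 1))) = 2 * n / Real.log n := by
        rw [pow_succ]; field_simp
      rw [e4, div_le_iff₀ (by linarith)]
      nlinarith
    have h12 : Real.log n ^ C * (10 * (√(n : ℝ) * Real.log n)) ≤ n / 64 := by
      have h13 : √(n : ℝ) * (640 * Real.log n ^ (C + 1)) ≤ √(n : ℝ) * √(n : ℝ) := mul_le_mul_of_nonneg_left hs (Real.sqrt_nonneg _)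
      rw [Real.mul_self_sqrt hn0.le] at h13
      have e5 : Real.log n ^ C * (10 * (√(n : ℝ) * Real.log n)) = √(n : ℝ) * (640 * Real.log n ^ (C + 1)) / 64 := by
        rw [pow_succ]; ring
      rw [e5]
      linarith
    calc _ ≤ _ := h10
      _ = Real.log n ^ C * (2 * (n / Real.log n ^ (C + 1))) + Real.log n ^ C * (10 * (√(n : ℝ) * Real.log n)) := by ring
      _ ≤ n / 64 + n / 64 := add_le_add h11 h12
      _ = n / 32 := by ring
  have h14 : (n : ℝ) * (1 / 2 * wv Y a) ≤ n * ((Vz Y)⁻¹ * Pv) := mul_le_mul_of_nonneg_left h8 hn0.le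
  have h15 : (n : ℝ) * 1 ≤ n * wv Y a := mul_le_mul_of_nonneg_left hw hn0.le
  nlinarith

end Pool.Agent.W2helper88.GM
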