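import Pool.Agent.W2helper88.GM.Cm

set_option autoImplicit false

/-!
# Project GM (helper88): the mirrored weights: second neighbourhoods have positive density
-/

namespace Pool.Agent.W2helper88.GM

open Finset Filter
open Pool.Agent.H373R2.T7 (pz Vz lamz mem_pz nuB PerB nuB_le sys_fund Vz_pos)
open Pool.Agent.W2helper88.GR

theorem degm_low : ∃ K0 : ℕ, ∀ K : ℕ, K0 ≤ K → ∀ᶠ n : ℕ in atTop, ∀ v : ℤ, 1 ≤ v → v ≤ n →
    (n : ℝ) / 8 * wv (rt K n) v ≤ ∑ x ∈ Icc (1 : ℤ) n, Vf n (rt K n) v x := by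
  classical
  obtain ⟨K0, hK0⟩ := half_low
  refine ⟨K0, fun K hK => ?_⟩
  filter_upwards [hK0 K hK, eventually_ge_atTop 2] with n h hn v hv hvn
  obtain ⟨Y, hY⟩ : ∃ Y, Y = rt K n := ⟨_, rfl⟩
  rw [← hY] at h ⊢
  obtain ⟨a, ha⟩ := Int.eq_ofNat_of_zero_le (by omega : 0 ≤ v)
  subst ha
  have ha1 : 1 ≤ a := by exact_mod_cast hv
  have han : a ≤ n := by exact_mod_cast hvn
  rcases Nat.lt_or_ge n (2 * a) with hc | hc
  · have h1 := h (a : ℤ) (a - 1) (by omega) (by omega)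
    refine h1.trans ?_
    have e : ∑ m ∈ Icc 1 (a - 1), ap n m * lz Y ((m : ℤ) - 2 * a) = ∑ x ∈ Icc (1 : ℤ) (a - 1 : ℕ), Vf n Y (a : ℤ) x := by
      refine sum_nbij' (fun m => (a : ℤ) - m) (fun x => ((a : ℤ) - x).toNat) ?_ ?_ ?_ ?_ ?_
      · intro m hm
        simp only [mem_Icc] at hm ⊢
        omega
      · intro x hx
        simp only [mem_Icc] at hx ⊢
        omega
      · intro m hm
        simp only [mem_Icc] at hm
        omega
      · intro x hx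
        simp only [mem_Icc] at hx
        omega
      · intro m _
        unfold Vf
        have e1 : (a : ℤ) - m - a = -(m : ℤ) := by ring
        have e2 : (a : ℤ) + (a - m) = -((m : ℤ) - 2 * a) := by ring
        rw [e1, e2, ap_neg, lz_neg]
    rw [e]
    apply sum_le_sum_of_subset_of_nonneg
    · intro x hx
      rw [mem_Icc] at hx ⊢
      omega
    · intro x _ _
      exact Vf_nonneg _ _ _ _
  · have h1 := h (-(a : ℤ)) (n - a) (by omega) (by omega)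
    rw [wv_neg] at h1
    refine h1.trans ?_
    have e : ∑ m ∈ Icc 1 (n - a), ap n m * lz Y ((m : ℤ) - 2 * (-(a : ℤ))) = ∑ x ∈ Icc ((a : ℤ) + 1) n, Vf n Y (a : ℤ) x := by
      refine sum_nbij' (fun m => (a : ℤ) + m) (fun x => (x - (a : ℤ)).toNat) ?_ ?_ ?_ ?_ ?_
      · intro m hm
        simp only [mem_Icc] at hm ⊢
        omega
      · intro x hx
        simp only [mem_Icc] at hx ⊢
        omega
      · intro m hm
        simp only [mem_Icc] at hm
        omega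
      · intro x hx
        simp only [mem_Icc] at hx
        omega
      · intro m _
        unfold Vf
        have e1 : (a : ℤ) + m - a = (m : ℤ) := by ring
        have e2 : (a : ℤ) + (a + m) = (m : ℤ) - 2 * (-(a : ℤ)) := by ring
        rw [e1, e2]
    rw [e]
    apply sum_le_sum_of_subset_of_nonneg
    · intro x hx
      rw [mem_Icc] at hx ⊢
      omega
    · intro x _ _
      exact Vf_nonneg _ _ _ _

lemma G3_neg (v x : ℤ) : G3 (-v) (-x) = G3 v x := by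
  unfold G3
  have e1 : (-v - -x).natAbs = (v - x).natAbs := by
    rw [← Int.natAbs_neg]; congr 1; ring
  have e2 : (-v + -x).natAbs = (v + x).natAbs := by
    rw [← Int.natAbs_neg]; congr 1; ring
  rw [Int.natAbs_neg, e1, e2]

lemma cf_Vf (n Y : ℕ) (v x : ℤ) : cf n (Vf n Y) v x = cf n (Wf n Y) (-v) (-x) := by
  unfold cf
  refine sum_congr rfl fun y _ => ?_
  rw [Vf_eq, Vf_eq]

/-- the upper bound for the codegrees -/
theorem cV_up : ∃ K0 : ℕ, ∀ K : ℕ, K0 ≤ K → ∃ D : ℝ, 0 < D ∧ ∀ᶠ n : ℕ in atTop, ∀ v x : ℤ, x ≠ 0 → v - x ≠ 0 → v + x ≠ 0 →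
    cf n (Vf n (rt K n)) v x ≤ D * n * wv (rt K n) v * G3 v x ^ 6 := by
  obtain ⟨K0, hK0⟩ := cW_up
  refine ⟨K0, fun K hK => ?_⟩
  obtain ⟨D, hD, h⟩ := hK0 K hK
  refine ⟨D, hD, ?_⟩
  filter_upwards [h] with n hn v x hx h1 h2
  have := hn (-v) (-x) (by omega) (by omega) (by omega)
  rwa [← cf_Vf, wv_neg, G3_neg] at this

/-- second neighbours with many paths of length two -/
noncomputable def N2m (n Y : ℕ) (v : ℤ) : Finset ℤ := by
  classical exact (Icc (1 : ℤ) n).filter (fun x => x ≠ v ∧ (n : ℝ) / 256 < cf n (Vf n Y) v x)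

lemma mem_N2m {n Y : ℕ} {v x : ℤ} : x ∈ N2m n Y v ↔ (1 ≤ x ∧ x ≤ n) ∧ x ≠ v ∧ (n : ℝ) / 256 < cf n (Vf n Y) v x := by
  unfold N2m
  rw [mem_filter, mem_Icc]

lemma cfm_nonneg (n Y : ℕ) (v x : ℤ) : 0 ≤ cf n (Vf n Y) v x :=
  sum_nonneg fun _ _ => mul_nonneg (Vf_nonneg _ _ _ _) (Vf_nonneg _ _ _ _)

theorem densem : ∃ K0 : ℕ, ∀ K : ℕ, K0 ≤ K → ∃ c0 : ℝ, 0 < c0 ∧ ∀ᶠ n : ℕ in atTop, ∀ v : ℤ, 1 ≤ v → v ≤ n →
    c0 * n ≤ (N2m n (rt K n) v).card := by
  classical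
  obtain ⟨Ka, ha⟩ := degm_low
  obtain ⟨Kb, hb⟩ := cV_up
  obtain ⟨C, hC, hG⟩ := G3_mom
  obtain ⟨CV, hCV1, hCV⟩ := V_low'
  refine ⟨max Ka Kb, fun K hK => ?_⟩
  obtain ⟨D, hD, hup⟩ := hb K (le_trans (le_max_right _ _) hK)
  refine ⟨1 / (16384 * D ^ 2 * C), by positivity, ?_⟩
  filter_upwards [ha K (le_trans (le_max_left _ _) hK), hup, hCV, eventually_ge_atTop 2, ev_log (2 * CV + 2) 1024, ev_L 1]
    with n h1 h2 h3 hn hs hL v hv hvn
  obtain ⟨Y, hY⟩ : ∃ Y, Y = rt K n := ⟨_, rfl⟩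
  rw [← hY] at h1 h2 ⊢
  have hYn : Y ≤ n := by rw [hY]; exact rt_le_self _ _
  have hn0 : (0 : ℝ) < n := by exact_mod_cast (by omega : 0 < n)
  have hn1 : (1 : ℝ) ≤ n := by exact_mod_cast (by omega : 1 ≤ n)
  obtain ⟨W, hW⟩ : ∃ W, W = wv Y v := ⟨_, rfl⟩
  have hW1 : 1 ≤ W := by rw [hW]; exact one_le_wv Y v
  -- the number of paths of length two
  have p1 : ∑ x ∈ Icc (1 : ℤ) n, cf n (Vf n Y) v x = ∑ y ∈ Icc (1 : ℤ) n, Vf n Y v y * ∑ x ∈ Icc (1 : ℤ) n, Vf n Y y x := by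
    unfold cf
    rw [sum_comm]
    refine sum_congr rfl fun y _ => ?_
    rw [mul_sum]
    refine sum_congr rfl fun x _ => ?_
    rw [Vf_symm n Y x y]
  have p2 : (n : ℝ) ^ 2 / 64 * W ≤ ∑ x ∈ Icc (1 : ℤ) n, cf n (Vf n Y) v x := by
    rw [p1]
    calc (n : ℝ) ^ 2 / 64 * W = (n / 8 * W) * (n / 8) := by ring
      _ ≤ (∑ y ∈ Icc (1 : ℤ) n, Vf n Y v y) * (n / 8) := by
          apply mul_le_mul_of_nonneg_right _ (by positivity)
          rw [hW]; exact h1 v hv hvn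
      _ = ∑ y ∈ Icc (1 : ℤ) n, Vf n Y v y * (n / 8) := by rw [sum_mul]
      _ ≤ _ := by
          refine sum_le_sum fun y hy => ?_
          rw [mem_Icc] at hy
          apply mul_le_mul_of_nonneg_left _ (Vf_nonneg _ _ _ _)
          have h4 := h1 y hy.1 hy.2
          have h5 := one_le_wv Y y
          have h6 : (n : ℝ) / 8 * 1 ≤ n / 8 * wv Y y := mul_le_mul_of_nonneg_left h5 (by positivity)
          linarith
  have p3 : cf n (Vf n Y) v v ≤ (n : ℝ) ^ 2 / 256 := by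
    unfold cf
    have h4 : ∀ y ∈ Icc (1 : ℤ) n, Vf n Y v y * Vf n Y v y ≤ 4 * Real.log n ^ (2 * CV + 2) := by
      intro y _
      have h5 : Vf n Y v y ≤ 2 * Real.log n ^ (CV + 1) := by
        unfold Vf
        calc ap n (y - v) * lz Y (v + y) ≤ (2 * Real.log n) * Real.log n ^ CV :=
              mul_le_mul (ap_le n hn _) ((lz_le _ _).trans (h3 Y hYn)) (lz_nonneg _ _) (by linarith)
          _ = _ := by rw [pow_succ]; ring
      calc Vf n Y v y * Vf n Y v y ≤ (2 * Real.log n ^ (CV + 1)) * (2 * Real.log n ^ (CV + 1)) :=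
            mul_le_mul h5 h5 (Vf_nonneg _ _ _ _) (by positivity)
        _ = 4 * (Real.log n ^ (CV + 1) * Real.log n ^ (CV + 1)) := by ring
        _ = _ := by rw [← pow_add]; congr 2; ring
    refine (sum_le_sum h4).trans ?_
    rw [sum_const, nsmul_eq_mul, Int.card_Icc, add_sub_cancel_right, Int.toNat_natCast]
    have h5 : √(n : ℝ) ≤ n := by
      rw [Real.sqrt_le_left (by linarith)]
      nlinarith
    have h6 : 1024 * Real.log n ^ (2 * CV + 2) ≤ n := hs.trans h5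
    calc (n : ℝ) * (4 * Real.log n ^ (2 * CV + 2)) = n * (1024 * Real.log n ^ (2 * CV + 2)) / 256 := by ring
      _ ≤ n * n / 256 := by
          apply div_le_div_of_nonneg_right _ (by norm_num)
          exact mul_le_mul_of_nonneg_left h6 hn0.le
      _ = _ := by ring
  have hvmem : v ∈ Icc (1 : ℤ) n := by rw [mem_Icc]; exact ⟨hv, hvn⟩
  have p4 : ∑ x ∈ Icc (1 : ℤ) n, cf n (Vf n Y) v x - cf n (Vf n Y) v v - (n : ℝ) ^ 2 / 256 ≤ ∑ x ∈ N2m n Y v, cf n (Vf n Y) v x := by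
    have q1 : ∀ x ∈ (Icc (1 : ℤ) n).erase v, cf n (Vf n Y) v x ≤ (if x ∈ N2m n Y v then cf n (Vf n Y) v x else 0) + n / 256 := by
      intro x hx
      rw [mem_erase, mem_Icc] at hx
      by_cases hN : x ∈ N2m n Y v
      · rw [if_pos hN]
        have : (0 : ℝ) ≤ n / 256 := by positivity
        linarith
      · rw [if_neg hN, zero_add]
        by_contra hcon
        push Not at hcon
        exact hN (mem_N2m.2 ⟨hx.2, hx.1, hcon⟩)
    have q2 := sum_le_sum q1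
    rw [sum_add_distrib, sum_const, nsmul_eq_mul, ← sum_filter] at q2
    have q3 : ((Icc (1 : ℤ) n).erase v).filter (fun x => x ∈ N2m n Y v) = N2m n Y v := by
      ext x
      rw [mem_filter, mem_erase, mem_Icc]
      constructor
      · exact fun h => h.2
      · intro h
        have h' := mem_N2m.1 h
        exact ⟨⟨h'.2.1, h'.1⟩, h⟩
    rw [q3] at q2
    have q4 : (((Icc (1 : ℤ) n).erase v).card : ℝ) ≤ n := by
      have : ((Icc (1 : ℤ) n).erase v).card ≤ n := by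
        refine (card_le_card (erase_subset _ _)).trans ?_
        rw [Int.card_Icc, add_sub_cancel_right, Int.toNat_natCast]
      exact_mod_cast this
    have q5 : (((Icc (1 : ℤ) n).erase v).card : ℝ) * (n / 256) ≤ n * (n / 256) := mul_le_mul_of_nonneg_right q4 (by positivity)
    rw [← add_sum_erase _ _ hvmem]
    linarith
  have p5 : (n : ℝ) ^ 2 / 128 * W ≤ ∑ x ∈ N2m n Y v, cf n (Vf n Y) v x := by
    have : (n : ℝ) ^ 2 / 128 * 1 ≤ (n : ℝ) ^ 2 / 128 * W := mul_le_mul_of_nonneg_left hW1 (by positivity)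
    linarith
  have p6 : ∑ x ∈ N2m n Y v, cf n (Vf n Y) v x ^ 2 ≤ D ^ 2 * n ^ 3 * W ^ 2 * C := by
    have h4 : ∀ x ∈ N2m n Y v, cf n (Vf n Y) v x ^ 2 ≤ (D ^ 2 * n ^ 2 * W ^ 2) * (G3 v x ^ 6) ^ 2 := by
      intro x hx
      rw [mem_N2m] at hx
      have h5 := h2 v x (by omega) (by have := hx.2.1; omega) (by omega)
      rw [← hW] at h5
      calc cf n (Vf n Y) v x ^ 2 ≤ (D * n * W * G3 v x ^ 6) ^ 2 := pow_le_pow_left₀ (cfm_nonneg _ _ _ _) h5 2
        _ = _ := by ring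
    refine (sum_le_sum h4).trans ?_
    rw [← mul_sum]
    calc (D ^ 2 * n ^ 2 * W ^ 2) * ∑ x ∈ N2m n Y v, (G3 v x ^ 6) ^ 2 ≤ (D ^ 2 * n ^ 2 * W ^ 2) * ∑ x ∈ Icc (1 : ℤ) n, (G3 v x ^ 6) ^ 2 := by
          apply mul_le_mul_of_nonneg_left _ (by positivity)
          apply sum_le_sum_of_subset_of_nonneg
          · intro x hx
            rw [mem_N2m] at hx
            rw [mem_Icc]; exact hx.1
          · intro x _ _; positivity
      _ ≤ (D ^ 2 * n ^ 2 * W ^ 2) * (C * n) := mul_le_mul_of_nonneg_left (hG n (by omega) v hv hvn) (by positivity)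
      _ = _ := by ring
  have p7 : (∑ x ∈ N2m n Y v, cf n (Vf n Y) v x) ^ 2 ≤ (N2m n Y v).card * ∑ x ∈ N2m n Y v, cf n (Vf n Y) v x ^ 2 :=
    sq_sum_le_card_mul_sum_sq
  have p8 : ((n : ℝ) ^ 2 / 128 * W) ^ 2 ≤ (N2m n Y v).card * (D ^ 2 * n ^ 3 * W ^ 2 * C) := by
    calc ((n : ℝ) ^ 2 / 128 * W) ^ 2 ≤ (∑ x ∈ N2m n Y v, cf n (Vf n Y) v x) ^ 2 := pow_le_pow_left₀ (by positivity) p5 2
      _ ≤ _ := p7
      _ ≤ _ := mul_le_mul_of_nonneg_left p6 (Nat.cast_nonneg _)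
  rw [div_mul_eq_mul_div, one_mul, div_le_iff₀ (by positivity)]
  have hfac : 0 < (n : ℝ) ^ 3 * W ^ 2 / 16384 := by positivity
  have p9 : (n : ℝ) * ((n : ℝ) ^ 3 * W ^ 2 / 16384) ≤ ((N2m n Y v).card * (16384 * D ^ 2 * C)) * ((n : ℝ) ^ 3 * W ^ 2 / 16384) := by
    calc (n : ℝ) * ((n : ℝ) ^ 3 * W ^ 2 / 16384) = ((n : ℝ) ^ 2 / 128 * W) ^ 2 := by ring
      _ ≤ _ := p8
      _ = _ := by ring
  exact le_of_mul_le_mul_right p9 hfac

end Pool.Agent.W2helper88.GM
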