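import Pool.Agent.W2helper88.GR.Cod

set_option autoImplicit false

/-!
# Project GM (helper88): the mirrored weights (prime difference, rough sum): trace lemma, part a
-/

namespace Pool.Agent.W2helper88.GM

open Finset Filter
open Pool.Agent.H373R2.T7 (pz Vz lamz mem_pz nuB PerB nuB_le sys_fund Vz_pos)
open Pool.Agent.H807R2.Dav
open Pool.Agent.W2helper88.GR

/-- the sums over quadruples with the pattern `e`, mirrored -/
noncomputable def TTm (n Y w : ℕ) (e : Fin 4 → Bool) : ℝ :=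
  S4 n (fun x x' y y' => (∏ i, aa n w (e i) (df x x' y y' i)) * ∏ i, lz (zz Y w (e i)) (sg x x' y y' i))

lemma sum_Icc_shift (n : ℕ) (f : ℤ → ℝ) :
    ∑ m ∈ Icc (-(n : ℤ)) n, f m = ∑ r ∈ Ioc 0 (2 * n + 1), f ((r : ℤ) - (n + 1)) := by
  refine sum_nbij' (fun m => (m + (n + 1)).toNat) (fun r => (r : ℤ) - (n + 1)) ?_ ?_ ?_ ?_ ?_
  · intro m hm
    simp only [mem_Icc, mem_Ioc] at hm ⊢
    omega
  · intro r hr
    simp only [mem_Icc, mem_Ioc] at hr ⊢
    omega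
  · intro m hm
    simp only [mem_Icc] at hm
    omega
  · intro r hr
    simp only [mem_Ioc] at hr
    omega
  · intro m hm
    simp only [mem_Icc] at hm
    congr 1
    omega

lemma sum_Icc_neg (n : ℕ) (f : ℤ → ℝ) : ∑ m ∈ Icc (-(n : ℤ)) n, f (-m) = ∑ m ∈ Icc (-(n : ℤ)) n, f m := by
  refine sum_nbij' (fun m => -m) (fun m => -m) ?_ ?_ ?_ ?_ ?_
  · intro m hm
    simp only [mem_Icc] at hm ⊢
    omega
  · intro m hm
    simp only [mem_Icc] at hm ⊢
    omega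
  · intro m _
    simp
  · intro m _
    simp
  · intro m _
    rfl

/-- the upper bound for the sums of four weights, symmetric range -/
theorem La2 : ∃ CA : ℝ, 0 < CA ∧ ∀ w : ℕ, ∀ᶠ n : ℕ in atTop, ∀ e : Fin 4 → Bool, ∀ h k : ℤ, Nd h k →
    ∑ m ∈ Icc (-(n : ℤ)) n, ∏ i, aa n w (e i) (pat m h k i) ≤ CA * n * HH h k ^ 6 := by
  obtain ⟨K, x0, hK, hs⟩ := sieve3
  obtain ⟨C1, hC1, hap⟩ := ap_le_lz (max K 2) (le_max_right _ _)
  obtain ⟨C, hC⟩ := V_low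
  refine ⟨129 * C1 ^ 4, by positivity, fun w => ?_⟩
  filter_upwards [hap, hC, rt_ge (max K 2) (max x0 (max w 1)) (by omega), eventually_ge_atTop 1, ev_log (4 * C) 2, ev_L 1]
    with n h1 h2 h3 hn h5 hL e h k hnd
  obtain ⟨Y, hY⟩ : ∃ Y, Y = rt (max K 2) n := ⟨_, rfl⟩
  rw [← hY] at h1 h3
  have hYn : Y ≤ n := by rw [hY]; exact rt_le_self _ _
  have hxY : x0 ≤ Y := le_trans (le_max_left _ _) h3
  have hwY : w ≤ Y := le_trans (le_trans (le_max_left _ _) (le_max_right _ _)) h3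
  have h1Y : 1 ≤ Y := le_trans (le_trans (le_max_right _ _) (le_max_right _ _)) h3
  have hYK : Y ^ K ≤ n := by
    calc Y ^ K ≤ Y ^ (max K 2) := Nat.pow_le_pow_right h1Y (le_max_left _ _)
      _ ≤ n := by rw [hY]; exact rt_le _ n (by omega)
  have hn0 : (0 : ℝ) < n := by exact_mod_cast hn
  have hn1 : (1 : ℝ) ≤ n := by exact_mod_cast hn
  have hu : ∀ (b : Bool) (m : ℤ), aa n w b m ≤ C1 * lz (zz Y w b) m := by
    intro b m
    unfold aa zz
    cases b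
    · simp only [Bool.false_eq_true, if_false]
      have := lz_nonneg w m
      nlinarith
    · simp only [if_true]
      exact h1 m
  have e1 : ∑ m ∈ Icc (-(n : ℤ)) n, ∏ i, aa n w (e i) (pat m h k i) ≤
      C1 ^ 4 * ∑ r ∈ Ioc 0 (2 * n + 1), ∏ i, lz (zz Y w (e i)) (1 * (r : ℤ) + pat (-((n : ℤ) + 1)) h k i) := by
    rw [sum_Icc_shift, mul_sum]
    refine sum_le_sum fun r _ => ?_
    have e4 : C1 ^ 4 * ∏ i, lz (zz Y w (e i)) (1 * (r : ℤ) + pat (-((n : ℤ) + 1)) h k i) =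
        ∏ i, (C1 * lz (zz Y w (e i)) (1 * (r : ℤ) + pat (-((n : ℤ) + 1)) h k i)) := by
      rw [prod_mul_distrib, prod_const, card_univ, Fintype.card_fin]
    rw [e4]
    refine prod_le_prod (fun i _ => aa_nonneg _ _ _ _) (fun i _ => ?_)
    have e5 : pat ((r : ℤ) - (n + 1)) h k i = 1 * (r : ℤ) + pat (-((n : ℤ) + 1)) h k i := by
      fin_cases i <;> simp [pat] <;> ring
    rw [e5]
    exact hu (e i) _
  refine e1.trans ?_
  have h6 := hs n Y hxY hYK 1 (Or.inl rfl) (pat (-((n : ℤ) + 1)) h k) (fun i => zz Y w (e i)) (fun i => zz_le hwY _) (2 * n + 1)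
  have h7 : Sz 1 (pat (-((n : ℤ) + 1)) h k) (fun i => zz Y w (e i)) Y ≤ 16 * HH h k ^ 6 := by
    refine (Sz_le 1 (Or.inl rfl) _ _ _).trans ?_
    apply mul_le_mul_of_nonneg_left _ (by norm_num)
    exact pow_le_pow_left₀ (by linarith [one_le_Hc (pat (-((n : ℤ) + 1)) h k) Y]) (Hc_pat _ h k Y hnd) 6
  have h8 : ∏ i, (Vz (zz Y w (e i)))⁻¹ ≤ (Real.log n ^ C) ^ 4 := by
    apply prod4_le_pow
    · intro i; exact inv_nonneg.2 (Vz_pos _).le
    · intro i; exact h2 _ ((zz_le hwY _).trans hYn)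
  have h9 : 2 * √(n : ℝ) * ∏ i, (Vz (zz Y w (e i)))⁻¹ ≤ n := by
    calc 2 * √(n : ℝ) * ∏ i, (Vz (zz Y w (e i)))⁻¹ ≤ 2 * √(n : ℝ) * (Real.log n ^ C) ^ 4 :=
          mul_le_mul_of_nonneg_left h8 (by positivity)
      _ = √(n : ℝ) * (2 * Real.log n ^ (4 * C)) := by rw [← pow_mul, mul_comm C 4]; ring
      _ ≤ √(n : ℝ) * √(n : ℝ) := mul_le_mul_of_nonneg_left h5 (Real.sqrt_nonneg _)
      _ = n := Real.mul_self_sqrt hn0.le
  have hH : 1 ≤ HH h k ^ 6 := one_le_pow₀ (one_le_HH h k)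
  have h10 : 2 * ((2 * n + 1 : ℕ) : ℝ) * Sz 1 (pat (-((n : ℤ) + 1)) h k) (fun i => zz Y w (e i)) Y ≤
      2 * ((2 * n + 1 : ℕ) : ℝ) * (16 * HH h k ^ 6) :=
    mul_le_mul_of_nonneg_left h7 (by positivity)
  have h11 : ∑ r ∈ Ioc 0 (2 * n + 1), ∏ i, lz (zz Y w (e i)) (1 * (r : ℤ) + pat (-((n : ℤ) + 1)) h k i) ≤ 129 * n * HH h k ^ 6 := by
    push_cast at h10
    push_cast at h6
    have h12 : (n : ℝ) * 1 ≤ n * HH h k ^ 6 := mul_le_mul_of_nonneg_left hH hn0.le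
    have h13 : 2 * (2 * (n : ℝ) + 1) * (16 * HH h k ^ 6) ≤ 2 * (2 * (n : ℝ) + n) * (16 * HH h k ^ 6) := by
      apply mul_le_mul_of_nonneg_right _ (by positivity)
      linarith
    linarith
  calc C1 ^ 4 * ∑ r ∈ Ioc 0 (2 * n + 1), ∏ i, lz (zz Y w (e i)) (1 * (r : ℤ) + pat (-((n : ℤ) + 1)) h k i) ≤
      C1 ^ 4 * (129 * n * HH h k ^ 6) :=
        mul_le_mul_of_nonneg_left h11 (by positivity)
    _ = _ := by ring

theorem T1am : ∃ CT : ℝ, 0 < CT ∧ ∀ ε : ℝ, 0 < ε → ∃ K0 : ℕ, ∀ K : ℕ, K0 ≤ K → ∀ w : ℕ, 4 ≤ w → ∀ η : ℝ, 0 < η →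
    ∀ᶠ n : ℕ in atTop, ∀ e : Fin 4 → Bool,
    |TTm n (rt K n) w e - S4 n (fun x x' y y' => (∏ i, aa n w (e i) (df x x' y y' i)) * SAf w x x' y y')| ≤
      (CT * (256 / √(w : ℝ) + 32 * ε) + η) * n ^ 4 := by
  obtain ⟨CA, hCA, hLa⟩ := La2
  obtain ⟨C6, hC6, h6⟩ := HH_sum 6
  obtain ⟨C19, hC19, h19⟩ := HH_sum 19
  obtain ⟨C, hC1, hC⟩ := V_low'
  refine ⟨CA * C19, by positivity, fun ε hε => ?_⟩
  obtain ⟨K0, x0, hK0, hint⟩ := intv ε hε
  refine ⟨max K0 1, fun K hK w hw η hη => ?_⟩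
  have hK1 : 1 ≤ K := le_trans (le_max_right _ _) hK
  filter_upwards [hLa w, hC, rt_ge K (max x0 (max w 1)) hK1, eventually_ge_atTop 2, ev_log (8 * C) ((2 * (CA * C6) + 576) / η), ev_L 1]
    with n h1 h2 h3 hn h5 hL e
  obtain ⟨Y, hY⟩ : ∃ Y, Y = rt K n := ⟨_, rfl⟩
  rw [← hY] at h3 ⊢
  have hYn : Y ≤ n := by rw [hY]; exact rt_le_self _ _
  have hxY : x0 ≤ Y := le_trans (le_max_left _ _) h3
  have hwY : w ≤ Y := le_trans (le_trans (le_max_left _ _) (le_max_right _ _)) h3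
  have h1Y : 1 ≤ Y := le_trans (le_trans (le_max_right _ _) (le_max_right _ _)) h3
  have hYK : Y ^ K0 ≤ n := by
    calc Y ^ K0 ≤ Y ^ K := Nat.pow_le_pow_right h1Y (le_trans (le_max_left _ _) hK)
      _ ≤ n := by rw [hY]; exact rt_le _ n hK1
  have hn0 : (0 : ℝ) < n := by exact_mod_cast (by omega : 0 < n)
  have hn1 : (1 : ℝ) ≤ n := by exact_mod_cast (by omega : 1 ≤ n)
  have hV4 : ∏ i, (Vz (zz Y w (e i)))⁻¹ ≤ (Real.log n ^ C) ^ 4 := by
    apply prod4_le_pow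
    · intro i; exact inv_nonneg.2 (Vz_pos _).le
    · intro i; exact h2 _ ((zz_le hwY _).trans hYn)
  have hLC : 1 ≤ Real.log n ^ C := one_le_pow₀ hL
  obtain ⟨A, hA⟩ : ∃ A : ℤ → ℤ → ℤ → ℝ, A = fun h k b => ∏ i, aa n w (e i) (pat (-b) (-h) k i) := ⟨_, rfl⟩
  obtain ⟨D, hD⟩ : ∃ D : ℤ → ℤ → ℤ → ℝ, D = fun h k b => ∑ y ∈ Icc (lo2 n h k b) (hi2 n h k b),
      (∏ i, lz (zz Y w (e i)) (2 * y + pat b h k i) - Sw 2 (pat b h k) w) := ⟨_, rfl⟩
  have e1 : TTm n Y w e - S4 n (fun x x' y y' => (∏ i, aa n w (e i) (df x x' y y' i)) * SAf w x x' y y') =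
      ∑ h ∈ Icc (-(n : ℤ)) n, ∑ k ∈ Icc (-(n : ℤ)) n, ∑ b ∈ Icc (-(n : ℤ)) n, A h k b * D h k b := by
    unfold TTm
    rw [← S4_sub, R2]
    refine sum_congr rfl fun h _ => sum_congr rfl fun k _ => sum_congr rfl fun b _ => ?_
    rw [hA, hD]
    simp only
    rw [mul_sum]
    refine sum_congr rfl fun y _ => ?_
    unfold SAf
    rw [sg_R2, df_R2, Sw_shift 2 (Or.inr rfl), mul_sub]
    congr 1
    congr 1
    refine prod_congr rfl fun i _ => ?_
    rw [add_comm]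
  rw [e1]
  have haa : ∀ (b : Bool) (m : ℤ), aa n w b m ≤ 2 * Real.log n ^ C := by
    intro b m
    unfold aa
    split_ifs
    · refine (ap_le n hn m).trans ?_
      have : Real.log n ^ 1 ≤ Real.log n ^ C := pow_le_pow_right₀ hL hC1
      rw [pow_one] at this
      linarith
    · refine (lz_le w m).trans ((h2 w (hwY.trans hYn)).trans ?_)
      linarith
  have hcard : ((Icc (-(n : ℤ)) n).card : ℝ) ≤ 3 * n := by
    rw [Int.card_Icc]
    have : ((n : ℤ) + 1 - -(n : ℤ)).toNat = 2 * n + 1 := by omega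
    rw [this]; push_cast; linarith
  have hmain := err_sum C6 C19 h6 h19 n (by omega) (Icc (-(n : ℤ)) n) hcard A D CA (256 / √(w : ℝ) + 32 * ε)
    (2 * √(n : ℝ) * (Real.log n ^ C) ^ 4) (16 * (Real.log n ^ C) ^ 8)
    hCA.le (by positivity) (by positivity) (by positivity)
    (fun h k m => by rw [hA]; exact prod_nonneg fun i _ => aa_nonneg _ _ _ _)
    (fun h k hnd => by
      rw [hA]
      have h7 := sum_Icc_neg n (fun m => ∏ i, aa n w (e i) (pat m (-h) k i))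
      simp only
      rw [h7, ← HH_neg]
      exact h1 e (-h) k (Nd_neg hnd))
    (fun h k hnd m _ => by
      rw [hD]
      have h7 := hint n Y w hxY hYK hw (pat m h k) (fun i => zz Y w (e i)) (fun i => le_zz hwY _) (fun i => zz_le hwY _)
        (lo2 n h k m) (hi2 n h k m) (lo2_ge n h k m) (hi2_le n h k m)
      refine h7.trans (add_le_add ?_ ?_)
      · apply mul_le_mul_of_nonneg_right _ (by positivity)
        apply mul_le_mul_of_nonneg_left _ hn0.le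
        apply pow_le_pow_left₀ (by linarith [one_le_Hc (pat m h k) Y])
        exact Hc_pat _ _ _ _ hnd
      · exact mul_le_mul_of_nonneg_left hV4 (by positivity))
    (fun h k m _ => by
      rw [hA, hD]
      simp only
      rw [abs_mul, abs_of_nonneg (prod_nonneg fun i _ => aa_nonneg _ _ _ _)]
      have h8 : ∏ i, aa n w (e i) (pat (-m) (-h) k i) ≤ (2 * Real.log n ^ C) ^ 4 :=
        prod4_le_pow _ _ (fun i => aa_nonneg _ _ _ _) (fun i => haa _ _)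
      have h9 := D_bound n (lo2 n h k m) (hi2 n h k m) (lo2_ge n h k m) (hi2_le n h k m)
        (fun y => ∏ i, lz (zz Y w (e i)) (2 * y + pat m h k i)) (Sw 2 (pat m h k) w) ((Real.log n ^ C) ^ 4)
        (fun y => prod_nonneg fun i _ => lz_nonneg _ _)
        (fun y => prod4_le_pow _ _ (fun i => lz_nonneg _ _) (fun i => (lz_le _ _).trans (h2 _ ((zz_le hwY _).trans hYn))))
        (Sw_nonneg _ _ _) ((Sw_le_V _ _ _).trans (pow_le_pow_left₀ (inv_nonneg.2 (Vz_pos _).le) (h2 w (hwY.trans hYn)) 4))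
      calc (∏ i, aa n w (e i) (pat (-m) (-h) k i)) * _ ≤ (2 * Real.log n ^ C) ^ 4 * (n * (Real.log n ^ C) ^ 4) :=
            mul_le_mul h8 h9 (abs_nonneg _) (by positivity)
        _ = _ := by ring)
  refine hmain.trans ?_
  have h10 : (Real.log n ^ C) ^ 8 = Real.log n ^ (8 * C) := by rw [← pow_mul, mul_comm]
  rw [h10]
  have h11 : (Real.log n ^ C) ^ 4 ≤ Real.log n ^ (8 * C) := by
    rw [← h10]
    exact pow_le_pow_right₀ hLC (by norm_num)
  exact fin_num (CA * C6) η (Real.log n ^ (8 * C)) ((Real.log n ^ C) ^ 4) (√(n : ℝ)) n (256 / √(w : ℝ) + 32 * ε) (CA * C19) hη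
    (by positivity) h11 (one_le_pow₀ hLC) (by
      rw [Real.one_le_sqrt]
      exact_mod_cast (by omega : 1 ≤ n)) (Real.mul_self_sqrt hn0.le).symm h5

theorem T1cm : ∃ CT : ℝ, 0 < CT ∧ ∀ ε : ℝ, 0 < ε → ∀ B : ℕ, 1 ≤ B → ∀ w : ℕ, 4 ≤ w → ∀ η : ℝ, 0 < η →
    ∀ᶠ n : ℕ in atTop, ∀ e : Fin 4 → Bool,
    |S4 n (fun x x' y y' => (∏ i, lz (zz (zp B n) w (e i)) (df x x' y y' i)) * SAf w x x' y y') -
      S4 n (fun x x' y y' => SAf w x x' y y' * SBf w x x' y y')| ≤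
      (CT * (256 / √(w : ℝ) + 32 * ε) + η) * n ^ 4 := by
  obtain ⟨C6, hC6, h6⟩ := HH_sum 6
  obtain ⟨C19, hC19, h19⟩ := HH_sum 19
  obtain ⟨C, hC1, hC⟩ := V_low'
  refine ⟨48 * C19, by positivity, fun ε hε B hB w hw η hη => ?_⟩
  obtain ⟨K0, x0, hK0, hint⟩ := intv ε hε
  filter_upwards [hC, zp_ge B (max x0 (max w 1)) hB, zp_small B K0, eventually_ge_atTop 2,
    ev_log (8 * C) ((2 * (48 * C6) + 576) / η), ev_L 1]
    with n h2 h3 hYK hn h5 hL e
  obtain ⟨Y, hY⟩ : ∃ Y, Y = zp B n := ⟨_, rfl⟩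
  rw [← hY] at h3 hYK ⊢
  have hxY : x0 ≤ Y := le_trans (le_max_left _ _) h3
  have hwY : w ≤ Y := le_trans (le_trans (le_max_left _ _) (le_max_right _ _)) h3
  have h1Y : 1 ≤ Y := le_trans (le_trans (le_max_right _ _) (le_max_right _ _)) h3
  have hYn : Y ≤ n := (Nat.le_self_pow (by omega) Y).trans hYK
  have hn0 : (0 : ℝ) < n := by exact_mod_cast (by omega : 0 < n)
  have hn1 : (1 : ℝ) ≤ n := by exact_mod_cast (by omega : 1 ≤ n)
  have hV4 : ∏ i, (Vz (zz Y w (e i)))⁻¹ ≤ (Real.log n ^ C) ^ 4 := by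
    apply prod4_le_pow
    · intro i; exact inv_nonneg.2 (Vz_pos _).le
    · intro i; exact h2 _ ((zz_le hwY _).trans hYn)
  have hLC : 1 ≤ Real.log n ^ C := one_le_pow₀ hL
  obtain ⟨A, hA⟩ : ∃ A : ℤ → ℤ → ℤ → ℝ, A = fun h k m => Sw 2 (pat m h k) w := ⟨_, rfl⟩
  obtain ⟨D, hD⟩ : ∃ D : ℤ → ℤ → ℤ → ℝ, D = fun h k m => ∑ y ∈ Icc (lo1 n h k m) (hi1 n h k m),
      (∏ i, lz (zz Y w (e i)) (2 * y + pat (-m) (-h) k i) - Sw 2 (pat (-m) (-h) k) w) := ⟨_, rfl⟩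
  have e1 : S4 n (fun x x' y y' => (∏ i, lz (zz Y w (e i)) (df x x' y y' i)) * SAf w x x' y y') -
      S4 n (fun x x' y y' => SAf w x x' y y' * SBf w x x' y y') =
      ∑ h ∈ Icc (-(n : ℤ)) n, ∑ k ∈ Icc (-(n : ℤ)) n, ∑ m ∈ Icc (1 : ℤ) (2 * n : ℕ), A h k m * D h k m := by
    rw [← S4_sub, R1]
    refine sum_congr rfl fun h _ => sum_congr rfl fun k _ => sum_congr rfl fun m _ => ?_
    rw [hA, hD]
    simp only
    rw [mul_sum]
    refine sum_congr rfl fun y _ => ?_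
    unfold SBf SAf
    rw [sg_R1, df_R1, Sw_shift 2 (Or.inr rfl), mul_comm, ← mul_sub]
    congr 1
    congr 1
    refine prod_congr rfl fun i _ => ?_
    rw [add_comm]
  rw [e1]
  have hSV : ∀ c : Fin 4 → ℤ, Sw 2 c w ≤ (Real.log n ^ C) ^ 4 := fun c =>
    (Sw_le_V _ _ _).trans (pow_le_pow_left₀ (inv_nonneg.2 (Vz_pos _).le) (h2 w (hwY.trans hYn)) 4)
  have hcard : ((Icc (1 : ℤ) (2 * n : ℕ)).card : ℝ) ≤ 3 * n := by
    rw [Int.card_Icc]
    have : (((2 * n : ℕ) : ℤ) + 1 - 1).toNat = 2 * n := by omega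
    rw [this]; push_cast; linarith
  have hmain := err_sum C6 C19 h6 h19 n (by omega) (Icc (1 : ℤ) (2 * n : ℕ)) hcard A D 48 (256 / √(w : ℝ) + 32 * ε)
    (2 * √(n : ℝ) * (Real.log n ^ C) ^ 4) (16 * (Real.log n ^ C) ^ 8)
    (by norm_num) (by positivity) (by positivity) (by positivity)
    (fun h k m => by rw [hA]; exact Sw_nonneg _ _ _)
    (fun h k hnd => by
      rw [hA]
      have h7 : ∀ m ∈ Icc (1 : ℤ) (2 * n : ℕ), Sw 2 (pat m h k) w ≤ 16 * HH h k ^ 6 := by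
        intro m _
        refine (Sw_le _ _).trans ?_
        apply mul_le_mul_of_nonneg_left _ (by norm_num)
        apply pow_le_pow_left₀ (by linarith [one_le_Hc (pat m h k) w])
        exact Hc_pat _ _ _ _ hnd
      calc ∑ m ∈ Icc (1 : ℤ) (2 * n : ℕ), Sw 2 (pat m h k) w ≤ ∑ m ∈ Icc (1 : ℤ) (2 * n : ℕ), 16 * HH h k ^ 6 := sum_le_sum h7
        _ = (Icc (1 : ℤ) (2 * n : ℕ)).card * (16 * HH h k ^ 6) := by rw [sum_const, nsmul_eq_mul]
        _ ≤ (3 * n) * (16 * HH h k ^ 6) := by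
            apply mul_le_mul_of_nonneg_right hcard
            have := one_le_HH h k
            positivity
        _ = _ := by ring)
    (fun h k hnd m _ => by
      rw [hD]
      have h7 := hint n Y w hxY hYK hw (pat (-m) (-h) k) (fun i => zz Y w (e i)) (fun i => le_zz hwY _) (fun i => zz_le hwY _)
        (lo1 n h k m) (hi1 n h k m) (lo1_ge n h k m) (hi1_le n h k m)
      refine h7.trans (add_le_add ?_ ?_)
      · apply mul_le_mul_of_nonneg_right _ (by positivity)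
        apply mul_le_mul_of_nonneg_left _ hn0.le
        apply pow_le_pow_left₀ (by linarith [one_le_Hc (pat (-m) (-h) k) Y])
        rw [← HH_neg]
        exact Hc_pat _ _ _ _ (Nd_neg hnd)
      · exact mul_le_mul_of_nonneg_left hV4 (by positivity))
    (fun h k m _ => by
      rw [hA, hD]
      simp only
      rw [abs_mul, abs_of_nonneg (Sw_nonneg _ _ _)]
      have h9 := D_bound n (lo1 n h k m) (hi1 n h k m) (lo1_ge n h k m) (hi1_le n h k m)
        (fun y => ∏ i, lz (zz Y w (e i)) (2 * y + pat (-m) (-h) k i)) (Sw 2 (pat (-m) (-h) k) w) ((Real.log n ^ C) ^ 4)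
        (fun y => prod_nonneg fun i _ => lz_nonneg _ _)
        (fun y => prod4_le_pow _ _ (fun i => lz_nonneg _ _) (fun i => (lz_le _ _).trans (h2 _ ((zz_le hwY _).trans hYn))))
        (Sw_nonneg _ _ _) (hSV _)
      calc Sw 2 (pat m h k) w * _ ≤ (Real.log n ^ C) ^ 4 * (n * (Real.log n ^ C) ^ 4) :=
            mul_le_mul (hSV _) h9 (abs_nonneg _) (by positivity)
        _ = n * (Real.log n ^ C) ^ 8 := by ring
        _ ≤ n * (16 * (Real.log n ^ C) ^ 8) := by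
            apply mul_le_mul_of_nonneg_left _ hn0.le
            have : 0 ≤ (Real.log n ^ C) ^ 8 := by positivity
            linarith)
  refine hmain.trans ?_
  have h10 : (Real.log n ^ C) ^ 8 = Real.log n ^ (8 * C) := by rw [← pow_mul, mul_comm]
  rw [h10]
  have h11 : (Real.log n ^ C) ^ 4 ≤ Real.log n ^ (8 * C) := by
    rw [← h10]
    exact pow_le_pow_right₀ hLC (by norm_num)
  exact fin_num (48 * C6) η (Real.log n ^ (8 * C)) ((Real.log n ^ C) ^ 4) (√(n : ℝ)) n (256 / √(w : ℝ) + 32 * ε) (48 * C19) hη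
    (by positivity) h11 (one_le_pow₀ hLC) (by
      rw [Real.one_le_sqrt]
      exact hn1) (Real.mul_self_sqrt hn0.le).symm h5

end Pool.Agent.W2helper88.GM
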