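import Pool.Agent.W2helper88.GM.Ta

set_option autoImplicit false

/-!
# Project GM (helper88): the mirrored weights: trace lemma, part b
-/

namespace Pool.Agent.W2helper88.GM

open Finset Filter
open Pool.Agent.H373R2.T7 (pz Vz lamz mem_pz nuB PerB nuB_le sys_fund Vz_pos)
open Pool.Agent.H807R2.Dav
open Pool.Agent.W2helper88.GR

lemma ap_neg (n : ℕ) (m : ℤ) : ap n (-m) = ap n m := by
  unfold ap
  rw [Int.natAbs_neg]

lemma log_half : ∀ᶠ n : ℕ in atTop, ∀ X : ℕ, n ≤ X + 1 → X ≤ n → Real.log n ≤ 2 * Real.log X ∧ Real.log ((2 * n : ℕ) : ℝ) ≤ 2 * Real.log X := by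
  filter_upwards [eventually_ge_atTop 10] with n hn X hX hXn
  have hX9 : (9 : ℝ) ≤ X := by exact_mod_cast (by omega : 9 ≤ X)
  have hn0 : (0 : ℝ) < n := by exact_mod_cast (by omega : 0 < n)
  have h1 : (n : ℝ) ≤ X + 1 := by exact_mod_cast hX
  have h2 : Real.log ((2 * n : ℕ) : ℝ) ≤ 2 * Real.log X := by
    calc Real.log ((2 * n : ℕ) : ℝ) ≤ Real.log ((X : ℝ) ^ 2) := by
          apply Real.log_le_log (by push_cast; linarith)
          push_cast; nlinarith
      _ = 2 * Real.log X := by rw [Real.log_pow]; norm_num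
  refine ⟨le_trans (Real.log_le_log hn0 ?_) h2, h2⟩
  push_cast; linarith

theorem seg (U : ℕ) : ∃ B : ℕ, 1 ≤ B ∧ ∀ᶠ n : ℕ in atTop, ∀ X : ℕ, n ≤ X + 1 → X ≤ n → ∀ α : ℝ,
    ‖∑ m ∈ Icc 1 X, ((ap n m - lz (zp B n) m : ℝ) : ℂ) * ee ((m : ℝ) * α)‖ ≤ 2 * n / Real.log n ^ U := by
  obtain ⟨B0, hB⟩ := Pool.Agent.H373R2.T7.sup_diff (U + 1)
  refine ⟨B0 + 1, by omega, ?_⟩
  obtain ⟨N0, hN0⟩ := hB (B0 + 3)
  filter_upwards [eventually_ge_atTop (max (N0 + 1) 2), zp_le (B0 + 1), ev_L (max 1 (2 ^ (B0 + 4) + 2 ^ (U + 1))), ev_log (U + 1) 10, log_half]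
    with n hn hz hLL hs hlh X hX hXn α
  have hXN : N0 ≤ X := by
    have := le_trans (le_max_left _ _) hn
    omega
  have hn2 : 2 ≤ n := le_trans (le_max_right _ _) hn
  have hn0 : (2 : ℝ) ≤ n := by exact_mod_cast hn2
  have hL : 1 ≤ Real.log n := le_trans (le_max_left _ _) hLL
  have hL3 : (2 : ℝ) ^ (B0 + 4) + 2 ^ (U + 1) ≤ Real.log n := le_trans (le_max_right _ _) hLL
  obtain ⟨q1, q2⟩ := hlh X hX hXn
  have p4 : (0 : ℝ) < 2 ^ (B0 + 4) := by positivity
  have pU : (0 : ℝ) < 2 ^ (U + 1) := by positivity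
  have hLX : (2 : ℝ) ^ (B0 + 3) ≤ Real.log X := by
    have : (2 : ℝ) ^ (B0 + 4) = 2 * 2 ^ (B0 + 3) := by ring
    linarith
  have hLX1 : 1 ≤ Real.log X := le_trans (one_le_pow₀ (by norm_num)) hLX
  have hX0 : (0 : ℝ) < X := by
    by_contra hc
    have : (X : ℝ) = 0 := le_antisymm (not_lt.1 hc) (Nat.cast_nonneg _)
    rw [this, Real.log_zero] at hLX1
    linarith
  have hXn' : (X : ℝ) ≤ n := by exact_mod_cast hXn
  have hL2 : Real.log X ≤ Real.log ((2 * n : ℕ) : ℝ) := by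
    apply Real.log_le_log hX0
    push_cast; linarith
  have h1 := hN0 X hXN (zp (B0 + 1) n) (by
    refine le_trans ?_ (Nat.le_ceil _)
    calc Real.log X ^ B0 ≤ Real.log X ^ (B0 + 1) := pow_le_pow_right₀ hLX1 (by omega)
      _ ≤ _ := pow_le_pow_left₀ (by linarith) hL2 _) (by
    refine hz.trans ?_
    calc Real.log ((2 * n : ℕ) : ℝ) ^ (B0 + 1 + 1) ≤ (2 * Real.log X) ^ (B0 + 2) :=
          pow_le_pow_left₀ (by linarith) q2 _
      _ = 2 ^ (B0 + 2) * Real.log X ^ (B0 + 2) := by rw [mul_pow]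
      _ ≤ Real.log X * Real.log X ^ (B0 + 2) := by
          apply mul_le_mul_of_nonneg_right _ (by positivity)
          refine le_trans ?_ hLX
          exact pow_le_pow_right₀ (by norm_num) (by omega)
      _ = Real.log X ^ (B0 + 3) := by ring) α
  have e : ∑ m ∈ Icc 1 X, ((ap n m - lz (zp (B0 + 1) n) m : ℝ) : ℂ) * ee ((m : ℝ) * α) =
      ∑ m ∈ Icc 1 X, ((ArithmeticFunction.vonMangoldt m - lamz (zp (B0 + 1) n) m : ℝ) : ℂ) * ee ((m : ℝ) * α) -
      ∑ m ∈ Icc 1 X, ((ArithmeticFunction.vonMangoldt m - ap n m : ℝ) : ℂ) * ee ((m : ℝ) * α) := by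
    rw [← sum_sub_distrib]
    refine sum_congr rfl fun m _ => ?_
    have : lz (zp (B0 + 1) n) (m : ℤ) = lamz (zp (B0 + 1) n) m := by
      unfold lz
      rw [Int.natAbs_natCast]
    rw [this]
    push_cast
    ring
  rw [e]
  refine (norm_sub_le _ _).trans ?_
  have h2 : ‖∑ m ∈ Icc 1 X, ((ArithmeticFunction.vonMangoldt m - ap n m : ℝ) : ℂ) * ee ((m : ℝ) * α)‖ ≤
      10 * (√(n : ℝ) * Real.log n) := by
    refine (norm_sum_le _ _).trans ?_
    calc ∑ m ∈ Icc 1 X, ‖((ArithmeticFunction.vonMangoldt m - ap n m : ℝ) : ℂ) * ee ((m : ℝ) * α)‖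
        = ∑ m ∈ Icc 1 X, (ArithmeticFunction.vonMangoldt m - ap n m) := by
          refine sum_congr rfl fun m _ => ?_
          rw [norm_mul, norm_ee, mul_one, Complex.norm_real, Real.norm_of_nonneg (by linarith [lam_ge_ap n m])]
      _ ≤ ∑ m ∈ Icc 1 (2 * n), (ArithmeticFunction.vonMangoldt m - ap n m) := by
          apply sum_le_sum_of_subset_of_nonneg
          · intro m hm
            rw [mem_Icc] at hm ⊢
            omega
          · intro m _ _
            linarith [lam_ge_ap n m]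
      _ ≤ _ := sum_lam_ap n hn2
  have hU : 0 < Real.log n ^ U := by positivity
  have h3 : 10 * (√(n : ℝ) * Real.log n) ≤ n / Real.log n ^ U := by
    rw [le_div_iff₀ hU]
    have h4 : √(n : ℝ) * (10 * Real.log n ^ (U + 1)) ≤ √(n : ℝ) * √(n : ℝ) := mul_le_mul_of_nonneg_left hs (Real.sqrt_nonneg _)
    rw [Real.mul_self_sqrt (by linarith)] at h4
    calc _ = √(n : ℝ) * (10 * Real.log n ^ (U + 1)) := by rw [pow_succ]; ring
      _ ≤ _ := h4
  have h4 : (X : ℝ) / Real.log X ^ (U + 1) ≤ n / Real.log n ^ U := by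
    rw [div_le_div_iff₀ (by positivity) hU]
    have h5 : Real.log n ^ (U + 1) ≤ 2 ^ (U + 1) * Real.log X ^ (U + 1) := by
      rw [← mul_pow]
      exact pow_le_pow_left₀ (by linarith) q1 _
    have h6 : 2 ^ (U + 1) * Real.log n ^ U ≤ Real.log n * Real.log n ^ U := by
      apply mul_le_mul_of_nonneg_right _ hU.le
      linarith
    have h7 : 2 ^ (U + 1) * Real.log n ^ U ≤ 2 ^ (U + 1) * Real.log X ^ (U + 1) := by
      refine h6.trans (le_trans (le_of_eq ?_) h5)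
      rw [pow_succ]; ring
    have h8 : Real.log n ^ U ≤ Real.log X ^ (U + 1) := le_of_mul_le_mul_left h7 pU
    exact mul_le_mul hXn' h8 hU.le (by linarith)
  calc _ ≤ (n / Real.log n ^ U) + n / Real.log n ^ U := add_le_add (h1.trans h4) (h2.trans h3)
    _ = _ := by ring

/-- the exponential sums over the shifted symmetric interval -/
theorem foum (U : ℕ) : ∃ B : ℕ, 1 ≤ B ∧ ∀ᶠ n : ℕ in atTop, ∀ α : ℝ,
    ‖∑ m ∈ Icc 1 (2 * n), ((ap n ((m : ℤ) - (n + 1)) - lz (zp B n) ((m : ℤ) - (n + 1)) : ℝ) : ℂ) * ee ((m : ℝ) * α)‖ ≤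
      5 * n / Real.log n ^ U := by
  obtain ⟨C, hC1, hC⟩ := V_low'
  obtain ⟨B, hB, hs⟩ := seg U
  refine ⟨B, hB, ?_⟩
  filter_upwards [hs, hC, zp_small B 1, eventually_ge_atTop 2, ev_log (C + U) 1, ev_L 1] with n h1 h2 h3 hn h5 hL α
  rw [pow_one] at h3
  have hn0 : (2 : ℝ) ≤ n := by exact_mod_cast hn
  obtain ⟨g, hg⟩ : ∃ g : ℤ → ℝ, g = fun k => ap n k - lz (zp B n) k := ⟨_, rfl⟩
  have hgn : ∀ k, g (-k) = g k := by
    intro k
    rw [hg]
    simp only
    rw [ap_neg, lz_neg]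
  have hU : 0 < Real.log n ^ U := by positivity
  -- split the sum
  have e1 : ∑ m ∈ Icc 1 (2 * n), ((ap n ((m : ℤ) - (n + 1)) - lz (zp B n) ((m : ℤ) - (n + 1)) : ℝ) : ℂ) * ee ((m : ℝ) * α) =
      ∑ m ∈ Icc 1 (2 * n), ((g ((m : ℤ) - (n + 1)) : ℝ) : ℂ) * ee ((m : ℝ) * α) := by
    rw [hg]
  have e2 : ∑ m ∈ Icc 1 (2 * n), ((g ((m : ℤ) - (n + 1)) : ℝ) : ℂ) * ee ((m : ℝ) * α) =
      ∑ j ∈ Icc 1 n, ((g (j : ℤ) : ℝ) : ℂ) * ee (((n : ℝ) + 1 - j) * α) + ((g 0 : ℝ) : ℂ) * ee (((n : ℝ) + 1) * α) +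
      ∑ j ∈ Icc 1 (n - 1), ((g (j : ℤ) : ℝ) : ℂ) * ee (((n : ℝ) + 1 + j) * α) := by
    have s1 : Icc 1 (2 * n) = (Icc 1 n ∪ {n + 1}) ∪ Icc (n + 2) (2 * n) := by
      ext m
      simp only [mem_Icc, mem_union, mem_singleton]
      omega
    have d1 : Disjoint (Icc 1 n ∪ {n + 1}) (Icc (n + 2) (2 * n)) := by
      rw [disjoint_left]
      intro m hm
      simp only [mem_Icc, mem_union, mem_singleton] at hm ⊢
      omega
    have d2 : Disjoint (Icc 1 n) {n + 1} := by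
      rw [disjoint_left]
      intro m hm
      simp only [mem_Icc, mem_singleton] at hm ⊢
      omega
    rw [s1, sum_union d1, sum_union d2, sum_singleton]
    congr 1
    · congr 1
      · refine sum_nbij' (fun m => n + 1 - m) (fun j => n + 1 - j) ?_ ?_ ?_ ?_ ?_
        · intro m hm
          simp only [mem_Icc] at hm ⊢
          omega
        · intro m hm
          simp only [mem_Icc] at hm ⊢
          omega
        · intro m hm
          simp only [mem_Icc] at hm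
          omega
        · intro m hm
          simp only [mem_Icc] at hm
          omega
        · intro m hm
          simp only [mem_Icc] at hm
          have a1 : ((n + 1 - m : ℕ) : ℤ) = -((m : ℤ) - (n + 1)) := by omega
          have a2 : ((n + 1 - m : ℕ) : ℝ) = (n : ℝ) + 1 - m := by
            rw [Nat.cast_sub (by omega)]; push_cast; ring
          rw [a1, hgn, a2]
          congr 2
          ring
      · have a1 : ((n + 1 : ℕ) : ℤ) - (n + 1) = 0 := by push_cast; ring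
        rw [a1]
        push_cast
        rfl
    · refine sum_nbij' (fun m => m - (n + 1)) (fun j => n + 1 + j) ?_ ?_ ?_ ?_ ?_
      · intro m hm
        simp only [mem_Icc] at hm ⊢
        omega
      · intro m hm
        simp only [mem_Icc] at hm ⊢
        omega
      · intro m hm
        simp only [mem_Icc] at hm
        omega
      · intro m hm
        simp only [mem_Icc] at hm
        omega
      · intro m hm
        simp only [mem_Icc] at hm
        have a1 : ((m - (n + 1) : ℕ) : ℤ) = (m : ℤ) - (n + 1) := by omega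
        have a2 : ((m - (n + 1) : ℕ) : ℝ) = m - ((n : ℝ) + 1) := by
          rw [Nat.cast_sub (by omega)]; push_cast; ring
        rw [a1, a2]
        congr 2
        ring
  have t1 : ‖∑ j ∈ Icc 1 n, ((g (j : ℤ) : ℝ) : ℂ) * ee (((n : ℝ) + 1 - j) * α)‖ ≤ 2 * n / Real.log n ^ U := by
    have a1 : ∑ j ∈ Icc 1 n, ((g (j : ℤ) : ℝ) : ℂ) * ee (((n : ℝ) + 1 - j) * α) =
        ee (((n : ℝ) + 1) * α) * ∑ j ∈ Icc 1 n, ((g (j : ℤ) : ℝ) : ℂ) * ee ((j : ℝ) * (-α)) := by
      rw [mul_sum]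
      refine sum_congr rfl fun j _ => ?_
      have a2 : ((n : ℝ) + 1 - j) * α = ((n : ℝ) + 1) * α + (j : ℝ) * (-α) := by ring
      rw [a2, ee_add]
      ring
    rw [a1, norm_mul, norm_ee, one_mul]
    have := h1 n (by omega) le_rfl (-α)
    rw [hg]
    exact this
  have t3 : ‖∑ j ∈ Icc 1 (n - 1), ((g (j : ℤ) : ℝ) : ℂ) * ee (((n : ℝ) + 1 + j) * α)‖ ≤ 2 * n / Real.log n ^ U := by
    have a1 : ∑ j ∈ Icc 1 (n - 1), ((g (j : ℤ) : ℝ) : ℂ) * ee (((n : ℝ) + 1 + j) * α) =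
        ee (((n : ℝ) + 1) * α) * ∑ j ∈ Icc 1 (n - 1), ((g (j : ℤ) : ℝ) : ℂ) * ee ((j : ℝ) * α) := by
      rw [mul_sum]
      refine sum_congr rfl fun j _ => ?_
      have a2 : ((n : ℝ) + 1 + j) * α = ((n : ℝ) + 1) * α + (j : ℝ) * α := by ring
      rw [a2, ee_add]
      ring
    rw [a1, norm_mul, norm_ee, one_mul]
    have := h1 (n - 1) (by omega) (by omega) α
    rw [hg]
    exact this
  have t2 : ‖((g 0 : ℝ) : ℂ) * ee (((n : ℝ) + 1) * α)‖ ≤ n / Real.log n ^ U := by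
    rw [norm_mul, norm_ee, mul_one, Complex.norm_real, hg]
    simp only
    have a1 : ap n 0 = 0 := by
      unfold ap
      rw [if_neg]
      rintro ⟨h, _⟩
      exact Nat.not_prime_zero (by simpa using h)
    rw [a1, zero_sub, norm_neg, Real.norm_of_nonneg (lz_nonneg _ _)]
    refine (lz_le _ _).trans ((h2 _ h3).trans ?_)
    rw [le_div_iff₀ hU, ← pow_add]
    have h6 : √(n : ℝ) ≤ n := by
      rw [Real.sqrt_le_left (by linarith)]
      nlinarith
    linarith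
  rw [e1, e2]
  refine (norm_add_le _ _).trans ((add_le_add ((norm_add_le _ _).trans (add_le_add t1 t2)) t3).trans (le_of_eq ?_))
  ring

lemma refl_sum (n : ℕ) (f : ℤ → ℝ) : ∑ x ∈ Icc (1 : ℤ) n, f x = ∑ x ∈ Icc (1 : ℤ) n, f (n + 1 - x) := by
  refine sum_nbij' (fun x => n + 1 - x) (fun x => n + 1 - x) ?_ ?_ ?_ ?_ ?_
  · intro x hx
    simp only [mem_Icc] at hx ⊢
    omega
  · intro x hx
    simp only [mem_Icc] at hx ⊢
    omega
  · intro x _
    ring
  · intro x _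
    ring
  · intro x _
    congr 1
    ring

lemma S4_refl (n : ℕ) (G : ℤ → ℤ → ℤ → ℤ → ℝ) :
    S4 n G = S4 n (fun x x' y y' => G (n + 1 - x) (n + 1 - x') y y') := by
  unfold S4
  rw [refl_sum n (fun x => ∑ x' ∈ Icc (1 : ℤ) n, ∑ y ∈ Icc (1 : ℤ) n, ∑ y' ∈ Icc (1 : ℤ) n, G x x' y y')]
  refine sum_congr rfl fun x _ => ?_
  rw [refl_sum n (fun x' => ∑ y ∈ Icc (1 : ℤ) n, ∑ y' ∈ Icc (1 : ℤ) n, G (n + 1 - x) x' y y')]

lemma df_refl (n : ℕ) (x x' y y' : ℤ) (i : Fin 4) :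
    df (n + 1 - x) (n + 1 - x') y y' i = sg x x' y y' i - (n + 1) := by
  fin_cases i <;> simp [sg, df] <;> ring

lemma PB_SAf (n w : ℕ) : PB (∏ p ∈ pz w, p) (((Vz w)⁻¹) ^ 4) (fun x x' y y' => SAf w (n + 1 - x) (n + 1 - x') y y') := by
  constructor
  · intro x x' y y'
    unfold SAf
    rw [abs_of_nonneg (Sw_nonneg _ _ _)]
    exact Sw_le_V _ _ _
  · intro x x' y y' x2 x2' y2 y2' h1 h2 h3 h4
    unfold SAf
    apply Sw_mod 2 _ _ w (∏ p ∈ pz w, p) (fun p hp => dvd_prod_of_mem _ hp)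
    intro i
    fin_cases i
    · have e : (n + 1 - x) + y - ((n + 1 - x2) + y2) = (y - y2) - (x - x2) := by ring
      simp only [sg, Fin.zero_eta, Matrix.cons_val_zero]
      rw [e]; exact dvd_sub h3 h1
    · have e : (n + 1 - x') + y - ((n + 1 - x2') + y2) = (y - y2) - (x' - x2') := by ring
      simp only [sg, Fin.mk_one, Matrix.cons_val_one, Matrix.cons_val_zero]
      rw [e]; exact dvd_sub h3 h2
    · have e : (n + 1 - x) + y' - ((n + 1 - x2) + y2') = (y' - y2') - (x - x2) := by ring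
      simp only [sg, Fin.reduceFinMk, Matrix.cons_val]
      rw [e]; exact dvd_sub h4 h1
    · have e : (n + 1 - x') + y' - ((n + 1 - x2') + y2') = (y' - y2') - (x' - x2') := by ring
      simp only [sg, Fin.reduceFinMk, Matrix.cons_val]
      rw [e]; exact dvd_sub h4 h2

theorem T1bm : ∃ B : ℕ, 1 ≤ B ∧ ∀ w : ℕ, ∀ η : ℝ, 0 < η → ∀ᶠ n : ℕ in atTop, ∀ e : Fin 4 → Bool,
    |S4 n (fun x x' y y' => (∏ i, aa n w (e i) (df x x' y y' i)) * SAf w x x' y y') -
      S4 n (fun x x' y y' => (∏ i, lz (zz (zp B n) w (e i)) (df x x' y y' i)) * SAf w x x' y y')| ≤ η * n ^ 4 := by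
  obtain ⟨C, hC1, hC⟩ := V_low'
  obtain ⟨B, hB, hfou⟩ := foum (3 * C + 1)
  refine ⟨B, hB, fun w η hη => ?_⟩
  obtain ⟨P, hP⟩ : ∃ P, P = ∏ p ∈ pz w, p := ⟨_, rfl⟩
  have hP1 : 1 ≤ P := by
    rw [hP]
    exact Nat.one_le_iff_ne_zero.2 (prod_ne_zero_iff.2 fun p hp => (mem_pz.1 hp).2.ne_zero)
  obtain ⟨Ms, hMs⟩ : ∃ Ms, Ms = ((Vz w)⁻¹) ^ 4 := ⟨_, rfl⟩
  have hMs0 : 0 ≤ Ms := by
    rw [hMs]
    exact pow_nonneg (inv_nonneg.2 (Vz_pos w).le) 4
  filter_upwards [hC, hfou, zp_ge B w hB, zp_small B 1, eventually_ge_atTop (max w 2), ev_L (max 1 (160 * P ^ 2 * Ms / η))]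
    with n h1 h2 h3 h4 hn hLL e
  have hPB : PB P Ms (fun x x' y y' => SAf w (n + 1 - x) (n + 1 - x') y y') := by rw [hP, hMs]; exact PB_SAf n w
  have hn2 : 2 ≤ n := le_trans (le_max_right _ _) hn
  have hwn : w ≤ n := le_trans (le_max_left _ _) hn
  have hL : 1 ≤ Real.log n := le_trans (le_max_left _ _) hLL
  have hLη : 160 * P ^ 2 * Ms / η ≤ Real.log n := le_trans (le_max_right _ _) hLL
  rw [pow_one] at h4
  have hn0 : (0 : ℝ) < n := by exact_mod_cast (by omega : 0 < n)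
  have hLC : 1 ≤ Real.log n ^ C := one_le_pow₀ hL
  have hlz : ∀ (z : ℕ) (m : ℤ), z ≤ n → |lz z m| ≤ 2 * Real.log n ^ C := by
    intro z m hz
    rw [abs_of_nonneg (lz_nonneg _ _)]
    refine (lz_le z m).trans ((h1 z hz).trans ?_)
    linarith
  have h5 := S4_rep n P (by omega) hP1 (fun i m => aa n w (e i) (m - (n + 1))) (fun i m => lz (zz (zp B n) w (e i)) (m - (n + 1)))
    (5 * n / Real.log n ^ (3 * C + 1))
    (2 * Real.log n ^ C) (by
      intro i α
      cases he : e i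
      · have : ∀ m : ℕ, ((aa n w false ((m : ℤ) - (n + 1)) - lz (zz (zp B n) w false) ((m : ℤ) - (n + 1)) : ℝ) : ℂ) * ee ((m : ℝ) * α) = 0 := by
          intro m
          unfold aa zz
          simp
        rw [sum_congr rfl fun m _ => this m]
        simp only [sum_const_zero, norm_zero]
        positivity
      · refine le_trans (le_of_eq ?_) (h2 α)
        congr 1) (by
      intro i x
      unfold aa
      split_ifs
      · rw [abs_of_nonneg (ap_nonneg _ _)]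
        refine (ap_le n hn2 _).trans ?_
        have : Real.log n ^ 1 ≤ Real.log n ^ C := pow_le_pow_right₀ hL hC1
        rw [pow_one] at this
        linarith
      · exact hlz w _ hwn) (by
      intro i x
      apply hlz
      unfold zz
      split_ifs
      · exact h4
      · exact hwn) (fun x x' y y' => SAf w (n + 1 - x) (n + 1 - x') y y') Ms hPB
  have r1 : S4 n (fun x x' y y' => (∏ i, aa n w (e i) (df x x' y y' i)) * SAf w x x' y y') =
      S4 n (fun x x' y y' => (∏ i, aa n w (e i) (sg x x' y y' i - (n + 1))) * SAf w (n + 1 - x) (n + 1 - x') y y') := by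
    rw [S4_refl n (fun x x' y y' => (∏ i, aa n w (e i) (df x x' y y' i)) * SAf w x x' y y')]
    congr 1
    funext x x' y y'
    congr 1
    exact prod_congr rfl fun i _ => by rw [df_refl]
  have r2 : S4 n (fun x x' y y' => (∏ i, lz (zz (zp B n) w (e i)) (df x x' y y' i)) * SAf w x x' y y') =
      S4 n (fun x x' y y' => (∏ i, lz (zz (zp B n) w (e i)) (sg x x' y y' i - (n + 1))) * SAf w (n + 1 - x) (n + 1 - x') y y') := by
    rw [S4_refl n (fun x x' y y' => (∏ i, lz (zz (zp B n) w (e i)) (df x x' y y' i)) * SAf w x x' y y')]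
    congr 1
    funext x x' y y'
    congr 1
    exact prod_congr rfl fun i _ => by rw [df_refl]
  rw [r1, r2]
  refine h5.trans ?_
  have e1 : 4 * ((P : ℝ) ^ 2 * Ms * (2 * Real.log n ^ C) ^ 3 * (5 * n / Real.log n ^ (3 * C + 1)) * n ^ 3) =
      (160 * P ^ 2 * Ms) / Real.log n * n ^ 4 := by
    have hL0 : Real.log n ≠ 0 := by positivity
    have e2 : Real.log n ^ (3 * C + 1) = (Real.log n ^ C) ^ 3 * Real.log n := by
      rw [pow_succ, ← pow_mul, mul_comm 3 C]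
    rw [e2]
    have hLC0 : Real.log n ^ C ≠ 0 := by positivity
    field_simp
    ring
  rw [e1]
  apply mul_le_mul_of_nonneg_right _ (by positivity)
  rw [div_le_iff₀ (by linarith)]
  rw [div_le_iff₀ hη] at hLη
  linarith

/-- the trace lemma, mirrored -/
theorem tracem : ∃ CT : ℝ, 0 < CT ∧ ∀ ε : ℝ, 0 < ε → ∃ K0 : ℕ, ∀ K : ℕ, K0 ≤ K → ∀ w : ℕ, 4 ≤ w → ∀ η : ℝ, 0 < η →
    ∀ᶠ n : ℕ in atTop, ∀ e : Fin 4 → Bool,
    |TTm n (rt K n) w e - S4 n (fun x x' y y' => SAf w x x' y y' * SBf w x x' y y')| ≤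
      (CT * (256 / √(w : ℝ) + 32 * ε) + η) * n ^ 4 := by
  obtain ⟨CT1, hCT1, ha⟩ := T1am
  obtain ⟨CT2, hCT2, hc⟩ := T1cm
  obtain ⟨B, hB, hb⟩ := T1bm
  refine ⟨CT1 + CT2, by positivity, fun ε hε => ?_⟩
  obtain ⟨K0, hK0⟩ := ha ε hε
  refine ⟨K0, fun K hK w hw η hη => ?_⟩
  filter_upwards [hK0 K hK w hw (η / 3) (by positivity), hc ε hε B hB w hw (η / 3) (by positivity), hb w (η / 3) (by positivity)]
    with n h1 h2 h3 e
  have g1 := h1 e
  have g2 := h2 e
  have g3 := h3 e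
  have key : ∀ a b c d : ℝ, |a - d| ≤ |a - b| + |b - c| + |c - d| := by
    intro a b c d
    have e1 : a - d = (a - b) + (b - c) + (c - d) := by ring
    rw [e1]
    exact (abs_add_le _ _).trans (add_le_add (abs_add_le _ _) le_rfl)
  refine (key _ _ _ _).trans ((add_le_add (add_le_add g1 g3) g2).trans (le_of_eq ?_))
  ring

end Pool.Agent.W2helper88.GM
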